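import Mathlib

/-!
# The Rudin–Shapiro sequence: basic facts
-/

namespace Pool.Agent.RS

/-- The number of occurrences (overlapping occurrences counted) of the block `11` in the binary
expansion of `n`: the number of positions `i` such that the binary digits number `i` and `i+1`
of `n` are both `1`. -/
def cnt11 (n : ℕ) : ℕ :=
  ((Finset.range n).filter (fun i => n.testBit i = true ∧ n.testBit (i + 1) = true)).card

/-- The Rudin–Shapiro sequence in `0/1` form. -/
def rsh (n : ℕ) : ℕ := cnt11 n % 2

/-- A fast Boolean version. -/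
def r : ℕ → Bool
  | 0 => false
  | n + 1 => xor (r ((n + 1) / 2)) (decide ((n + 1) % 2 = 1) && decide ((n + 1) / 2 % 2 = 1))
decreasing_by omega

theorem r_zero : r 0 = false := by rw [r]

theorem r_two_mul (m : ℕ) : r (2 * m) = r m := by
  rcases Nat.eq_zero_or_pos m with rfl | h
  · simp
  · obtain ⟨n, hn⟩ : ∃ n, 2 * m = n + 1 := ⟨2 * m - 1, by omega⟩
    rw [hn, r]
    have h1 : (n + 1) / 2 = m := by omega
    have h2 : (n + 1) % 2 = 0 := by omega
    rw [h1, h2]; simp

theorem r_two_mul_add_one (m : ℕ) : r (2 * m + 1) = xor (r m) (m.testBit 0) := by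
  rw [r]
  have h1 : (2 * m + 1) / 2 = m := by omega
  have h2 : (2 * m + 1) % 2 = 1 := by omega
  rw [h1, h2]
  simp [Nat.testBit_zero]

theorem cnt11_eq_of_le (n N : ℕ) (h : n ≤ N) :
    cnt11 n = ((Finset.range N).filter
      (fun i => n.testBit i = true ∧ n.testBit (i + 1) = true)).card := by
  unfold cnt11
  congr 1
  ext i
  simp only [Finset.mem_filter, Finset.mem_range]
  constructor
  · rintro ⟨h1, h2⟩; exact ⟨by omega, h2⟩
  · rintro ⟨_, h2, h3⟩
    refine ⟨?_, h2, h3⟩
    have := Nat.ge_two_pow_of_testBit h2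
    have h5 : i < 2 ^ i := Nat.lt_two_pow_self
    omega

theorem cnt11_double (m b : ℕ) (hb : b < 2) :
    cnt11 (2 * m + b) = cnt11 m + (if b = 1 ∧ m.testBit 0 = true then 1 else 0) := by
  have hN : 2 * m + b ≤ (2 * m + 1) + 1 := by omega
  rw [cnt11_eq_of_le _ _ hN, cnt11_eq_of_le m (2 * m + 1) (by omega)]
  rw [Finset.range_eq_Ico, Finset.range_eq_Ico]
  have key : (Finset.filter (fun i => (2 * m + b).testBit i = true ∧
      (2 * m + b).testBit (i + 1) = true) (Finset.Ico 0 (2 * m + 1 + 1)))
      = (Finset.filter (fun i => (2 * m + b).testBit i = true ∧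
      (2 * m + b).testBit (i + 1) = true) {0}) ∪
      (Finset.filter (fun i => m.testBit i = true ∧
      m.testBit (i + 1) = true) (Finset.Ico 0 (2 * m + 1))).map (addRightEmbedding 1) := by
    have tb : ∀ i, (2 * m + b).testBit (i + 1) = m.testBit i := by
      intro i
      rw [Nat.testBit_succ]
      congr 1; omega
    ext i
    simp only [Finset.mem_filter, Finset.mem_Ico, Finset.mem_union, Finset.mem_singleton,
      Finset.mem_map, addRightEmbedding_apply]
    constructor
    · rintro ⟨⟨_, h1⟩, h2, h3⟩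
      rcases i with _ | j
      · left; exact ⟨rfl, h2, h3⟩
      · right
        refine ⟨j, ⟨⟨Nat.zero_le _, by omega⟩, ?_, ?_⟩, rfl⟩
        · rw [← tb]; exact h2
        · rw [← tb]; exact h3
    · rintro (⟨rfl, h2, h3⟩ | ⟨j, ⟨⟨_, h1⟩, h2, h3⟩, rfl⟩)
      · exact ⟨⟨le_refl _, by omega⟩, h2, h3⟩
      · refine ⟨⟨Nat.zero_le _, by omega⟩, ?_, ?_⟩
        · rw [tb]; exact h2
        · rw [tb]; exact h3
  rw [key, Finset.card_union_of_disjoint, Finset.card_map, add_comm]
  · congr 1
    have t0 : (2 * m + b).testBit 0 = decide (b = 1) := by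
      rw [Nat.testBit_zero]; congr 1; rw [eq_iff_iff]; omega
    have t1 : (2 * m + b).testBit (0 + 1) = m.testBit 0 := by
      rw [Nat.testBit_succ]; congr 1; omega
    rw [Finset.filter_singleton, t0, t1]
    by_cases hb1 : b = 1 <;> by_cases hm : m.testBit 0 = true <;> simp [hb1, hm]
  · rw [Finset.disjoint_left]
    intro i hi hi2
    simp only [Finset.mem_filter, Finset.mem_singleton, Finset.mem_map,
      addRightEmbedding_apply] at hi hi2
    obtain ⟨h0, _⟩ := hi
    obtain ⟨j, _, hj⟩ := hi2
    omega

theorem r_eq_decide (n : ℕ) : r n = decide (cnt11 n % 2 = 1) := by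
  induction n using Nat.strong_induction_on with
  | _ n ih =>
    rcases Nat.eq_zero_or_pos n with rfl | hpos
    · rw [r_zero]; simp [cnt11]
    · obtain ⟨m, b, hb, rfl⟩ : ∃ m b, b < 2 ∧ n = 2 * m + b :=
        ⟨n / 2, n % 2, Nat.mod_lt _ (by norm_num), by omega⟩
      have := ih m (by omega)
      rw [cnt11_double m b hb]
      interval_cases b
      · simp only [Nat.add_zero]
        rw [r_two_mul, this]; simp
      · rw [r_two_mul_add_one, this]
        by_cases hm : m.testBit 0 = true
        · simp only [hm, and_self, if_true]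
          rcases Nat.mod_two_eq_zero_or_one (cnt11 m) with h | h
          · have : (cnt11 m + 1) % 2 = 1 := by omega
            simp [h, this]
          · have : (cnt11 m + 1) % 2 = 0 := by omega
            simp [h, this]
        · simp only [hm]
          simp

theorem rsh_eq_iff (a b : ℕ) : rsh a = rsh b ↔ r a = r b := by
  rw [r_eq_decide, r_eq_decide]
  unfold rsh
  rcases Nat.mod_two_eq_zero_or_one (cnt11 a) with h | h <;>
  rcases Nat.mod_two_eq_zero_or_one (cnt11 b) with h' | h' <;> simp [h, h']

/-- the zoom formula -/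
theorem r_zoom (s : ℕ) (hs : 1 ≤ s) (q u : ℕ) (hu : u < 2 ^ s) :
    r (2 ^ s * q + u) = xor (xor (r q) (r u)) (q.testBit 0 && u.testBit (s - 1)) := by
  induction s, hs using Nat.le_induction generalizing u with
  | base =>
    simp only [pow_one] at hu ⊢
    interval_cases u
    · simp [r_two_mul, r_zero]
    · have h1 : r 1 = false := by
        have := r_two_mul_add_one 0
        simpa [r_zero] using this
      rw [r_two_mul_add_one, h1]
      simp
  | succ s hs ih =>
    obtain ⟨v, b, hb, rfl⟩ : ∃ v b, b < 2 ∧ u = 2 * v + b :=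
      ⟨u / 2, u % 2, Nat.mod_lt _ (by norm_num), by omega⟩
    have hv : v < 2 ^ s := by rw [pow_succ] at hu; omega
    have e1 : 2 ^ (s + 1) * q + (2 * v + b) = 2 * (2 ^ s * q + v) + b := by ring
    have t1 : (2 * v + b).testBit (s + 1 - 1) = v.testBit (s - 1) := by
      obtain ⟨t, rfl⟩ : ∃ t, s = t + 1 := ⟨s - 1, by omega⟩
      simp only [Nat.add_sub_cancel]
      rw [Nat.testBit_succ]; congr 1; omega
    have t0 : (2 ^ s * q + v).testBit 0 = v.testBit 0 := by
      rw [Nat.testBit_zero, Nat.testBit_zero]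
      congr 1
      rw [eq_iff_iff]
      obtain ⟨t, rfl⟩ : ∃ t, s = t + 1 := ⟨s - 1, by omega⟩
      have : 2 ^ (t + 1) * q + v = 2 * (2 ^ t * q) + v := by ring
      rw [this]; omega
    rw [e1, t1]
    interval_cases b
    · simp only [Nat.add_zero]
      rw [r_two_mul, r_two_mul, ih v hv]
    · rw [r_two_mul_add_one, r_two_mul_add_one, ih v hv, t0]
      generalize r q = a1
      generalize r v = a2
      generalize q.testBit 0 = a3
      generalize v.testBit (s - 1) = a4
      generalize v.testBit 0 = a5
      revert a1 a2 a3 a4 a5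
      decide

end Pool.Agent.RS
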