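import Pool.Agent.RS.Mask

/-!
# The finite checks (kernel computations)
-/

namespace Pool.Agent.RS

def cond8 (δ h : ℕ) : Bool :=
  !(reach 8 13 δ h 8) ||
   (((δ % 256 == 1 || δ % 256 == 255) && (h == 31 || h == 32)) ||
   ((δ % 256 == 39 || δ % 256 == 217) && (h == 38 || h == 39)))

def check8 (a n : ℕ) : Bool := (List.range n).all (fun x => (List.range 31).all (fun t =>
  cond8 (2 * (a + x) + 1) (t + 30)))

theorem check8_0 : check8 0 64 = true := by decide +kernel
theorem check8_1 : check8 64 64 = true := by decide +kernel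
theorem check8_2 : check8 128 64 = true := by decide +kernel
theorem check8_3 : check8 192 64 = true := by decide +kernel

theorem cond8_of (a n x t : ℕ) (h : check8 a n = true) (hx : x < n) (ht : t < 31) :
    cond8 (2 * (a + x) + 1) (t + 30) = true := by
  unfold check8 at h
  rw [List.all_eq_true] at h
  have := h x (List.mem_range.mpr hx)
  rw [List.all_eq_true] at this
  exact this t (List.mem_range.mpr ht)

theorem fc8 (δ h : ℕ) (hδ : δ < 512) (hodd : δ % 2 = 1) (h30 : 30 ≤ h) (h60 : h ≤ 60)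
    (hr : reach 8 13 δ h 8 = true) :
    ((δ % 256 = 1 ∨ δ % 256 = 255) ∧ (h = 31 ∨ h = 32)) ∨
    ((δ % 256 = 39 ∨ δ % 256 = 217) ∧ (h = 38 ∨ h = 39)) := by
  have key : cond8 δ h = true := by
    have e1 : h = (h - 30) + 30 := by omega
    have e2 : δ = 2 * (δ / 2) + 1 := by omega
    rcases (by omega : δ / 2 < 64 ∨ (64 ≤ δ / 2 ∧ δ / 2 < 128) ∨ (128 ≤ δ / 2 ∧ δ / 2 < 192) ∨
      (192 ≤ δ / 2 ∧ δ / 2 < 256)) with hc | hc | hc | hc
    · have := cond8_of 0 64 (δ / 2) (h - 30) check8_0 hc (by omega)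
      rwa [zero_add, ← e1, ← e2] at this
    · have := cond8_of 64 64 (δ / 2 - 64) (h - 30) check8_1 (by omega) (by omega)
      rwa [show 64 + (δ / 2 - 64) = δ / 2 by omega, ← e1, ← e2] at this
    · have := cond8_of 128 64 (δ / 2 - 128) (h - 30) check8_2 (by omega) (by omega)
      rwa [show 128 + (δ / 2 - 128) = δ / 2 by omega, ← e1, ← e2] at this
    · have := cond8_of 192 64 (δ / 2 - 192) (h - 30) check8_3 (by omega) (by omega)
      rwa [show 192 + (δ / 2 - 192) = δ / 2 by omega, ← e1, ← e2] at this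
  unfold cond8 at key
  rw [hr] at key
  simpa [beq_iff_eq] using key

theorem fc9_list : ∀ q < 4, (reach 9 14 (256 * q + 1) 31 17 = true → (256 * q + 1) % 512 = 1) ∧
    (reach 9 14 (256 * q + 1) 32 17 = true → (256 * q + 1) % 512 = 1) ∧
    (reach 9 14 (256 * q + 255) 31 17 = true → (256 * q + 255) % 512 = 511) ∧
    (reach 9 14 (256 * q + 255) 32 17 = true → (256 * q + 255) % 512 = 511) ∧
    (reach 9 14 (256 * q + 39) 38 17 = false) ∧ (reach 9 14 (256 * q + 39) 39 17 = false) ∧
    (reach 9 14 (256 * q + 217) 38 17 = false) ∧ (reach 9 14 (256 * q + 217) 39 17 = false) := by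
  decide +kernel

theorem fc9 (δ h : ℕ) (hδ : δ < 1024) (hm : δ % 256 = 1 ∨ δ % 256 = 255) (hh : h = 31 ∨ h = 32)
    (hr : reach 9 14 δ h 17 = true) : δ % 512 = 1 ∨ δ % 512 = 511 := by
  obtain ⟨a1, a2, a3, a4, _⟩ := fc9_list (δ / 256) (by omega)
  rcases hm with hm | hm
  · have e : δ = 256 * (δ / 256) + 1 := by omega
    rw [← e] at a1 a2
    rcases hh with rfl | rfl
    · exact Or.inl (a1 hr)
    · exact Or.inl (a2 hr)
  · have e : δ = 256 * (δ / 256) + 255 := by omega
    rw [← e] at a3 a4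
    rcases hh with rfl | rfl
    · exact Or.inr (a3 hr)
    · exact Or.inr (a4 hr)

theorem fc9' (δ h : ℕ) (hδ : δ < 1024) (hm : δ % 256 = 39 ∨ δ % 256 = 217)
    (hh : h = 38 ∨ h = 39) (hr : reach 9 14 δ h 17 = true) : False := by
  obtain ⟨_, _, _, _, a1, a2, a3, a4⟩ := fc9_list (δ / 256) (by omega)
  rcases hm with hm | hm
  · have e : δ = 256 * (δ / 256) + 39 := by omega
    rw [← e] at a1 a2
    rcases hh with rfl | rfl
    · rw [a1] at hr; exact absurd hr (by decide)
    · rw [a2] at hr; exact absurd hr (by decide)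
  · have e : δ = 256 * (δ / 256) + 217 := by omega
    rw [← e] at a3 a4
    rcases hh with rfl | rfl
    · rw [a3] at hr; exact absurd hr (by decide)
    · rw [a4] at hr; exact absurd hr (by decide)

end Pool.Agent.RS
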