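import Pool.Agent.RS.Mask

/-!
# Direct verification that no long monochromatic progression exists for a given difference
-/

namespace Pool.Agent.RS

/-- `OR` of the shifts `D >>> (i*d)`, `i < t` -/
def dif (D d : ℕ) : ℕ → ℕ → ℕ
  | 0, _ => 0
  | k + 1, t =>
    if t = 0 then 0 else
      if t % 2 = 1 then
        (dif D d k (t / 2) ||| (dif D d k (t / 2) >>> (t / 2 * d))) ||| (D >>> ((t - 1) * d))
      else dif D d k (t / 2) ||| (dif D d k (t / 2) >>> (t / 2 * d))

theorem dif_sound (D d : ℕ) : ∀ (k t y : ℕ), (dif D d k t).testBit y = true →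
    ∃ i < t, D.testBit (y + i * d) = true := by
  intro k
  induction k with
  | zero => intro t y h; simp [dif] at h
  | succ k ih =>
    intro t y h
    rw [dif] at h
    split_ifs at h with h0 h1
    · simp at h
    · rw [Nat.testBit_or, Nat.testBit_or, Bool.or_eq_true, Bool.or_eq_true,
        Nat.testBit_shiftRight, Nat.testBit_shiftRight] at h
      rcases h with (h | h) | h
      · obtain ⟨i, hi, hh⟩ := ih _ _ h
        exact ⟨i, by omega, hh⟩
      · obtain ⟨i, hi, hh⟩ := ih _ _ h
        refine ⟨t / 2 + i, by omega, ?_⟩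
        rw [show y + (t / 2 + i) * d = t / 2 * d + y + i * d by ring]; exact hh
      · exact ⟨t - 1, by omega, by rw [add_comm]; exact h⟩
    · rw [Nat.testBit_or, Bool.or_eq_true, Nat.testBit_shiftRight] at h
      rcases h with h | h
      · obtain ⟨i, hi, hh⟩ := ih _ _ h
        exact ⟨i, by omega, hh⟩
      · obtain ⟨i, hi, hh⟩ := ih _ _ h
        refine ⟨t / 2 + i, by omega, ?_⟩
        rw [show y + (t / 2 + i) * d = t / 2 * d + y + i * d by ring]; exact hh

def chk (N d l : ℕ) : Bool :=
  (dif (Rm N ^^^ (Rm N >>> d)) d 12 (l - 1)) % 2 ^ (2 ^ (N - 1)) == 2 ^ (2 ^ (N - 1)) - 1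

theorem chk_sound (N d l : ℕ) (hN : 4 ≤ N) (hl : (l - 1) * d < 2 ^ (N - 3)) (hl1 : 1 ≤ l)
    (h : chk N d l = true) (y : ℕ) (hy : y < 2 ^ (N - 1)) : ¬ Mono y d l := by
  intro hm
  unfold chk at h
  rw [beq_iff_eq] at h
  have hbit := congrArg (fun x => x.testBit y) h
  simp only [Nat.testBit_mod_two_pow, Nat.testBit_two_pow_sub_one, hy, decide_true,
    Bool.true_and] at hbit
  obtain ⟨i, hi, hh⟩ := dif_sound _ _ _ _ _ hbit
  rw [Nat.testBit_xor, Nat.testBit_shiftRight, testBit_Rm, testBit_Rm] at hh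
  have e1 : 2 ^ N = 2 ^ (N - 1) + 2 ^ (N - 1) := by
    obtain ⟨M, rfl⟩ : ∃ M, N = M + 1 := ⟨N - 1, by omega⟩
    rw [pow_succ]; simp; ring
  have e2 : 2 ^ (N - 3) ≤ 2 ^ (N - 1) := Nat.pow_le_pow_right (by norm_num) (by omega)
  have h1 : (i + 1) * d ≤ (l - 1) * d := Nat.mul_le_mul_right _ (by omega)
  have h2 : y + i * d < 2 ^ N := by
    have : i * d ≤ (i + 1) * d := Nat.mul_le_mul_right _ (by omega)
    omega
  have h3 : d + (y + i * d) < 2 ^ N := by
    have : d + (y + i * d) = y + (i + 1) * d := by ring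
    omega
  simp only [h2, h3, decide_true, Bool.true_and] at hh
  have a1 := hm i (by omega)
  have a2 := hm (i + 1) (by omega)
  have e3 : d + (y + i * d) = y + (i + 1) * d := by ring
  rw [e3, a1, a2] at hh
  simp at hh

/-- reduction to small starting points -/
theorem mono_small (d l M n : ℕ) (hM : 1 ≤ M) (hl : (l - 1) * d < 2 ^ M) (hm : Mono n d l) :
    ∃ y < 2 ^ (M + 2), Mono y d l := by
  set Q := n / 2 ^ M with hQ
  set v := n % 2 ^ M with hv
  have hvlt : v < 2 ^ M := Nat.mod_lt _ (by positivity)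
  have hn : 2 ^ M * Q + v = n := Nat.div_add_mod _ _
  have r1 : r 1 = false := by simpa [r_zero] using r_two_mul_add_one 0
  have r2 : r 2 = false := by simpa [r1] using r_two_mul 1
  have r3 : r 3 = true := by simpa [r1] using r_two_mul_add_one 1
  have r4 : r 4 = false := by simpa [r2] using r_two_mul 2
  obtain ⟨Q', hQ4, hb, hd⟩ : ∃ Q' < 4, Q'.testBit 0 = Q.testBit 0 ∧
      xor (r Q') (r (Q' + 1)) = xor (r Q) (r (Q + 1)) := by
    have t0 : Nat.testBit 0 0 = false := by decide
    have t1 : Nat.testBit 1 0 = true := by decide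
    have t2 : Nat.testBit 2 0 = false := by decide
    have t3 : Nat.testBit 3 0 = true := by decide
    rcases hq : Q.testBit 0 <;> rcases hx : xor (r Q) (r (Q + 1))
    · exact ⟨0, by norm_num, t0, by simp [r_zero, r1]⟩
    · exact ⟨2, by norm_num, t2, by simp [r2, r3]⟩
    · exact ⟨1, by norm_num, t1, by simp [r1, r2]⟩
    · exact ⟨3, by norm_num, t3, by simp [r3, r4]⟩
  refine ⟨2 ^ M * Q' + v, ?_, ?_⟩
  · have : 2 ^ M * Q' ≤ 2 ^ M * 3 := Nat.mul_le_mul_left _ (by omega)
    have : 2 ^ (M + 2) = 2 ^ M * 4 := by rw [pow_add]; norm_num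
    omega
  · have key : ∀ j < l, xor (r (n + j * d)) (r (2 ^ M * Q' + v + j * d)) = xor (r Q) (r Q') := by
      intro j hj
      have hjd : j * d < 2 ^ M := lt_of_le_of_lt (Nat.mul_le_mul_right _ (by omega)) hl
      by_cases hc : v + j * d < 2 ^ M
      · have e1 : n + j * d = 2 ^ M * Q + (v + j * d) := by omega
        have e2 : 2 ^ M * Q' + v + j * d = 2 ^ M * Q' + (v + j * d) := by ring
        rw [e1, e2, r_zoom M hM _ _ hc, r_zoom M hM _ _ hc, hb]
        generalize r Q = a1
        generalize r Q' = a2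
        generalize r (v + j * d) = a3
        generalize (Q.testBit 0 && (v + j * d).testBit (M - 1)) = a4
        revert a1 a2 a3 a4; decide
      · have hlt : v + j * d - 2 ^ M < 2 ^ M := by omega
        have e1 : n + j * d = 2 ^ M * (Q + 1) + (v + j * d - 2 ^ M) := by
          rw [mul_add, mul_one]; omega
        have e2 : 2 ^ M * Q' + v + j * d = 2 ^ M * (Q' + 1) + (v + j * d - 2 ^ M) := by
          rw [mul_add, mul_one]; omega
        rw [e1, e2, r_zoom M hM _ _ hlt, r_zoom M hM _ _ hlt, testBit_succ_zero, testBit_succ_zero,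
          hb]
        revert hd
        generalize r Q = a1
        generalize r Q' = a2
        generalize r (Q + 1) = a5
        generalize r (Q' + 1) = a6
        generalize r (v + j * d - 2 ^ M) = a3
        generalize (!Q.testBit 0 && (v + j * d - 2 ^ M).testBit (M - 1)) = a4
        revert a1 a2 a3 a4 a5 a6; decide
    intro j hj
    have k1 := key j hj
    have k0 := key 0 (by omega)
    have hmj := hm j hj
    simp only [Nat.zero_mul, Nat.add_zero] at k0
    rw [hmj] at k1
    rw [← k0] at k1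
    revert k1
    generalize r n = a1
    generalize r (2 ^ M * Q' + v + j * d) = a2
    generalize r (2 ^ M * Q' + v) = a3
    revert a1 a2 a3; decide

theorem no_mono_of_chk (N d l : ℕ) (hN : 4 ≤ N) (hl : (l - 1) * d < 2 ^ (N - 3)) (hl1 : 1 ≤ l)
    (h : chk N d l = true) (n : ℕ) : ¬ Mono n d l := by
  intro hm
  obtain ⟨y, hy, hm'⟩ := mono_small d l (N - 3) n (by omega) hl hm
  refine chk_sound N d l hN hl hl1 h y ?_ hm'
  have : N - 3 + 2 = N - 1 := by omega
  rwa [this] at hy

end Pool.Agent.RS
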