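import Pool.Agent.RS.Basic

/-!
# Local structure of the Rudin–Shapiro sequence
-/

namespace Pool.Agent.RS

/-- table of `r` on `[0,8)` -/
def tb8 (z : ℕ) : Bool := decide (z = 3) || decide (z = 6)

theorem r_lt8 (z : ℕ) (hz : z < 8) : r z = tb8 z := by
  have h1 : r 1 = false := by simpa [r_zero] using r_two_mul_add_one 0
  have h2 : r 2 = false := by simpa [h1] using r_two_mul 1
  have h3 : r 3 = true := by simpa [h1] using r_two_mul_add_one 1
  have h4 : r 4 = false := by simpa [h2] using r_two_mul 2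
  have h5 : r 5 = false := by
    have := r_two_mul_add_one 2
    simpa [h2] using this
  have h6 : r 6 = true := by simpa [h3] using r_two_mul 3
  have h7 : r 7 = false := by
    have := r_two_mul_add_one 3
    simpa [h3] using this
  interval_cases z <;> simp [tb8, r_zero, h1, h2, h3, h4, h5, h6, h7]

/-- values of `r` on `[8Y, 8Y+16)` in terms of `Y mod 2`, `r Y`, `r (Y+1)` -/
def patt (e a b : Bool) (u : ℕ) : Bool :=
  if u < 8 then xor (xor a (tb8 u)) (e && decide (4 ≤ u))
  else xor (xor b (tb8 (u - 8))) (!e && decide (12 ≤ u))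

theorem r_patt (Y u : ℕ) (hu : u < 16) :
    r (8 * Y + u) = patt (Y.testBit 0) (r Y) (r (Y + 1)) u := by
  have tbit : ∀ v, v < 8 → v.testBit (3 - 1) = decide (4 ≤ v) := by
    intro v hv; interval_cases v <;> decide
  have hsucc : (Y + 1).testBit 0 = !Y.testBit 0 := by
    rw [Nat.testBit_zero, Nat.testBit_zero]
    rcases Nat.mod_two_eq_zero_or_one Y with h | h
    · have : (Y + 1) % 2 = 1 := by omega
      simp [h, this]
    · have : (Y + 1) % 2 = 0 := by omega
      simp [h, this]
  unfold patt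
  split_ifs with h
  · have := r_zoom 3 (by norm_num) Y u (by omega)
    rw [show (2 : ℕ) ^ 3 = 8 by norm_num] at this
    rw [this, r_lt8 u h, tbit u h]
  · have := r_zoom 3 (by norm_num) (Y + 1) (u - 8) (by omega)
    rw [show (2 : ℕ) ^ 3 = 8 by norm_num] at this
    have e1 : 8 * Y + u = 8 * (Y + 1) + (u - 8) := by omega
    rw [e1, this, r_lt8 (u - 8) (by omega), hsucc, tbit (u - 8) (by omega)]
    have e2 : decide (4 ≤ u - 8) = decide (12 ≤ u) := by congr 1; rw [eq_iff_iff]; omega
    rw [e2]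

theorem oddcheck : ∀ z < 8, ∀ z' < 8, z % 2 ≠ z' % 2 → ∀ e a b e' a' b' : Bool,
    ¬ ∀ i < 8, xor (patt e a b (z + i)) (patt e' a' b' (z' + i)) =
      xor (patt e a b (z + i % 2)) (patt e' a' b' (z' + i % 2)) := by
  decide +kernel

/-- two factors of length 8 starting at positions of different parity never agree up to a constant
or alternating sequence -/
theorem odd_bad (p q : ℕ) (hpq : p % 2 ≠ q % 2)
    (h : ∀ i < 8, xor (r (p + i)) (r (q + i)) = xor (r (p + i % 2)) (r (q + i % 2))) : False := by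
  obtain ⟨P, z, hz, rfl⟩ : ∃ P z, z < 8 ∧ p = 8 * P + z := ⟨p / 8, p % 8, by omega, by omega⟩
  obtain ⟨Q, z', hz', rfl⟩ : ∃ P z, z < 8 ∧ q = 8 * P + z := ⟨q / 8, q % 8, by omega, by omega⟩
  apply oddcheck z hz z' hz' (by omega) (P.testBit 0) (r P) (r (P + 1))
    (Q.testBit 0) (r Q) (r (Q + 1))
  intro i hi
  have hi2 : i % 2 < 2 := Nat.mod_lt _ (by norm_num)
  rw [← r_patt _ _ (by omega), ← r_patt _ _ (by omega), ← r_patt _ _ (by omega),
    ← r_patt _ _ (by omega)]
  have := h i hi
  rw [add_assoc, add_assoc, add_assoc, add_assoc] at this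
  exact this

/-- `f h y = r y + r (y+h)` -/
def f (h y : ℕ) : Bool := xor (r y) (r (y + h))

theorem odd_bad_f (h c : ℕ) (hh : h % 2 = 1)
    (H : ∀ i < 8, f h (c + i) = f h (c + i % 2)) : False := by
  apply odd_bad c (c + h) (by omega)
  intro i hi
  have := H i hi
  unfold f at this
  have e1 : c + h + i = c + i + h := by ring
  have e2 : c + h + i % 2 = c + i % 2 + h := by ring
  rw [e1, e2]; exact this

theorem f32_eq (y : ℕ) : f 32 y = f 2 (y / 16) := by
  unfold f
  obtain ⟨z, u, hu, rfl⟩ : ∃ P z, z < 16 ∧ y = 16 * P + z := ⟨y / 16, y % 16, by omega, by omega⟩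
  have h1 := r_zoom 4 (by norm_num) z u (by omega)
  have h2 := r_zoom 4 (by norm_num) (z + 2) u (by omega)
  rw [show (2 : ℕ) ^ 4 = 16 by norm_num] at h1 h2
  have e1 : 16 * z + u + 32 = 16 * (z + 2) + u := by ring
  have e2 : (16 * z + u) / 16 = z := by omega
  have e3 : (z + 2).testBit 0 = z.testBit 0 := by
    rw [Nat.testBit_zero, Nat.testBit_zero]; congr 1; rw [eq_iff_iff]; omega
  rw [e1, e2, h1, h2, e3]
  generalize r z = a1
  generalize r u = a2
  generalize r (z + 2) = a3
  generalize z.testBit 0 = a4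
  generalize u.testBit (4 - 1) = a5
  revert a1 a2 a3 a4 a5; decide

theorem f2_even (A : ℕ) : f 2 (2 * A) = f 1 A := by
  unfold f
  have e1 : 2 * A + 2 = 2 * (A + 1) := by ring
  rw [e1, r_two_mul, r_two_mul]

theorem testBit_succ_zero (Y : ℕ) : (Y + 1).testBit 0 = !Y.testBit 0 := by
  rw [Nat.testBit_zero, Nat.testBit_zero]
  rcases Nat.mod_two_eq_zero_or_one Y with h | h
  · have : (Y + 1) % 2 = 1 := by omega
    simp [h, this]
  · have : (Y + 1) % 2 = 0 := by omega
    simp [h, this]

theorem f2_odd (A : ℕ) : f 2 (2 * A + 1) = !f 1 A := by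
  unfold f
  have e1 : 2 * A + 1 + 2 = 2 * (A + 1) + 1 := by ring
  rw [e1, r_two_mul_add_one, r_two_mul_add_one, testBit_succ_zero]
  generalize r A = a1
  generalize r (A + 1) = a2
  generalize A.testBit 0 = a3
  revert a1 a2 a3; decide

theorem f1_even (B : ℕ) : f 1 (2 * B) = B.testBit 0 := by
  unfold f
  rw [r_two_mul, r_two_mul_add_one]
  generalize r B = a1
  generalize B.testBit 0 = a3
  revert a1 a3; decide

theorem win16_aux (g : ℕ → Bool) (u : ℕ) (hu0 : 0 < u) (hu : u < 16)
    (H : ∀ i < 16, g ((u + i) / 16) = g ((u + i % 2) / 16)) : g 0 = g 1 := by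
  by_cases h15 : u = 15
  · subst h15
    have := H 2 (by norm_num)
    norm_num at this
    exact this.symm
  · have := H 15 (by norm_num)
    have e1 : (u + 15) / 16 = 1 := by omega
    have e2 : (u + 15 % 2) / 16 = 0 := by omega
    rw [e1, e2] at this
    exact this.symm

/-- four consecutive samples spaced by 32 force alignment -/
theorem align32 (c : ℕ)
    (H0 : ∀ i < 16, f 32 (c + i) = f 32 (c + i % 2))
    (H1 : ∀ i < 16, f 32 (c + 32 + i) = f 32 (c + 32 + i % 2))
    (H2 : ∀ i < 16, f 32 (c + 64 + i) = f 32 (c + 64 + i % 2)) : c % 16 = 0 := by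
  by_contra hc
  obtain ⟨z, u, hu, rfl⟩ : ∃ P z, z < 16 ∧ c = 16 * P + z := ⟨c / 16, c % 16, by omega, by omega⟩
  have hu0 : 0 < u := by omega
  have key : ∀ t, (∀ i < 16, f 32 (16 * z + u + 32 * t + i) = f 32 (16 * z + u + 32 * t + i % 2)) →
      f 2 (z + 2 * t) = f 2 (z + 2 * t + 1) := by
    intro t ht
    have := win16_aux (fun x => f 2 (z + 2 * t + x)) u hu0 hu (by
      intro i hi
      have h1 := ht i hi
      rw [f32_eq, f32_eq] at h1
      have e1 : (16 * z + u + 32 * t + i) / 16 = z + 2 * t + (u + i) / 16 := by omega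
      have e2 : (16 * z + u + 32 * t + i % 2) / 16 = z + 2 * t + (u + i % 2) / 16 := by omega
      rw [e1, e2] at h1
      exact h1)
    simpa using this
  have k0 := key 0 (by simpa using H0)
  have k1 := key 1 (by simpa using H1)
  have k2 := key 2 (by simpa using H2)
  simp only [Nat.mul_zero, Nat.add_zero, Nat.mul_one] at k0 k1 k2
  rcases Nat.even_or_odd' z with ⟨A, rfl | rfl⟩
  · rw [f2_even, f2_odd] at k0
    revert k0; cases f 1 A <;> simp
  · have e0 : 2 * A + 1 + 1 = 2 * (A + 1) := by ring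
    have e1 : 2 * A + 1 + 2 = 2 * (A + 1) + 1 := by ring
    have e2 : 2 * A + 1 + 2 + 1 = 2 * (A + 2) := by ring
    have e3 : 2 * A + 1 + 2 * 2 = 2 * (A + 2) + 1 := by ring
    have e4 : 2 * A + 1 + 2 * 2 + 1 = 2 * (A + 3) := by ring
    rw [e0, f2_odd, f2_even] at k0
    rw [e2, e1, f2_odd, f2_even] at k1
    rw [e4, e3, f2_odd, f2_even] at k2
    rcases Nat.even_or_odd' A with ⟨B, rfl | rfl⟩
    · have e5 : 2 * B + 2 = 2 * (B + 1) := by ring
      rw [e5, f1_even, testBit_succ_zero] at k1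
      rw [f1_even] at k0
      revert k0 k1
      generalize B.testBit 0 = a1
      generalize f 1 (2 * B + 1) = a2
      cases a1 <;> cases a2 <;> simp
    · have e5 : 2 * B + 1 + 1 = 2 * (B + 1) := by ring
      have e6 : 2 * B + 1 + 3 = 2 * (B + 2) := by ring
      rw [e5, f1_even] at k0 k1
      rw [e6, f1_even] at k2
      have e7 : (B + 2).testBit 0 = !(B + 1).testBit 0 := testBit_succ_zero (B + 1)
      rw [e7] at k2
      revert k1 k2
      generalize (B + 1).testBit 0 = a1
      generalize f 1 (2 * B + 1 + 2) = a2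
      cases a1 <;> cases a2 <;> simp

end Pool.Agent.RS
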