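import Pool.Agent.RS.Direct

/-!
# Small odd differences: kernel computations
-/

namespace Pool.Agent.RS

/-- the length that is excluded for the odd difference `d` -/
def lreq (d : ℕ) : ℕ :=
  if d < 23 then 16 else
  if d = 31 ∨ d = 127 ∨ d = 511 then (d + 9) / 2 else (d + 7) / 2

def chkD (d : ℕ) : Bool := chk (Nat.log2 ((lreq d - 1) * d) + 4) d (lreq d)

def chkRange (a : ℕ) : ℕ → Bool
  | 0 => true
  | k + 1 => chkD a && chkRange (a + 2) k

theorem chkRange_spec : ∀ (k a : ℕ), chkRange a k = true → ∀ d, a ≤ d → d < a + 2 * k →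
    d % 2 = a % 2 → chkD d = true := by
  intro k
  induction k with
  | zero => intro a _ d h1 h2; omega
  | succ k ih =>
    intro a h d h1 h2 h3
    rw [chkRange, Bool.and_eq_true] at h
    by_cases hd : d = a
    · rw [hd]; exact h.1
    · exact ih (a + 2) h.2 d (by omega) (by omega) (by omega)

theorem no_mono_of_chkD (d : ℕ) (hd : 1 ≤ d) (h : chkD d = true) (n : ℕ) : ¬ Mono n d (lreq d) := by
  have hl : 2 ≤ lreq d := by unfold lreq; split_ifs <;> omega
  have h0 : (lreq d - 1) * d ≠ 0 := by
    apply Nat.mul_ne_zero <;> omega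
  refine no_mono_of_chk _ d (lreq d) (by omega) ?_ (by omega) h n
  have := Nat.lt_log2_self (n := (lreq d - 1) * d)
  rw [show Nat.log2 ((lreq d - 1) * d) + 4 - 3 = Nat.log2 ((lreq d - 1) * d) + 1 by omega]
  exact this

theorem r0 : chkRange 1 61 = true := by decide +kernel
theorem r1 : chkRange 123 100 = true := by decide +kernel
theorem r2 : chkRange 323 100 = true := by decide +kernel
theorem r3 : chkRange 523 50 = true := by decide +kernel
theorem r4 : chkRange 623 50 = true := by decide +kernel
theorem r5 : chkRange 723 50 = true := by decide +kernel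
theorem r6 : chkRange 823 50 = true := by decide +kernel
theorem r7 : chkRange 923 51 = true := by decide +kernel

theorem small_odd (d n : ℕ) (hodd : d % 2 = 1) (hd : d < 1025) : ¬ Mono n d (lreq d) := by
  apply no_mono_of_chkD d (by omega)
  rcases Nat.lt_or_ge d 123 with h | h
  · exact chkRange_spec _ _ r0 d (by omega) (by omega) (by omega)
  rcases Nat.lt_or_ge d 323 with h | h
  · exact chkRange_spec _ _ r1 d (by omega) (by omega) (by omega)
  rcases Nat.lt_or_ge d 523 with h | h
  · exact chkRange_spec _ _ r2 d (by omega) (by omega) (by omega)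
  rcases Nat.lt_or_ge d 623 with h | h
  · exact chkRange_spec _ _ r3 d (by omega) (by omega) (by omega)
  rcases Nat.lt_or_ge d 723 with h | h
  · exact chkRange_spec _ _ r4 d (by omega) (by omega) (by omega)
  rcases Nat.lt_or_ge d 823 with h | h
  · exact chkRange_spec _ _ r5 d (by omega) (by omega) (by omega)
  rcases Nat.lt_or_ge d 923 with h | h
  · exact chkRange_spec _ _ r6 d (by omega) (by omega) (by omega)
  · exact chkRange_spec _ _ r7 d (by omega) (by omega) (by omega)

end Pool.Agent.RS
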