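import Pool.Agent.RS.Special

/-!
# Exact bounds for the differences `2^K + 1` and `2^K - 1`
-/

namespace Pool.Agent.RS

theorem testBit_zero_of_even (a : ℕ) (h : a % 2 = 0) : a.testBit 0 = false := by
  rw [Nat.testBit_zero]; simp [h]

theorem testBit_zero_of_odd (a : ℕ) (h : a % 2 = 1) : a.testBit 0 = true := by
  rw [Nat.testBit_zero]; simp [h]

/-- arithmetic set-up: `P = 2^K`, `L = 2^(K-1)` -/
theorem setup (K : ℕ) (hK : 10 ≤ K) :
    2 ^ K = 2 * 2 ^ (K - 1) ∧ 2 ^ (K - 1) = 2 * 2 ^ (K - 2) ∧ 2 ^ (K - 2) = 2 * 2 ^ (K - 3) ∧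
    128 ≤ 2 ^ (K - 3) ∧
    2 ^ (2 * K) = 2 ^ K * 2 ^ K ∧ 2 ^ (2 * K - 1) = 2 ^ K * 2 ^ (K - 1) := by
  refine ⟨?_, ?_, ?_, ?_, ?_, ?_⟩
  · conv_lhs => rw [show K = (K - 1) + 1 by omega, pow_succ]
    ring
  · conv_lhs => rw [show K - 1 = (K - 2) + 1 by omega, pow_succ]
    ring
  · conv_lhs => rw [show K - 2 = (K - 3) + 1 by omega, pow_succ]
    ring
  · have : 2 ^ 7 ≤ 2 ^ (K - 3) := Nat.pow_le_pow_right (by norm_num) (by omega)
    norm_num at this; exact this
  · rw [← pow_add]; congr 1; ring
  · rw [← pow_add]; congr 1; omega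

theorem block_top (K X w : ℕ) (hK : 10 ≤ K) (h1 : 2 ^ (2 * K - 1) ≤ w)
    (h2 : w < 2 ^ (2 * K)) : r (2 ^ (2 * K) * X + w) = xor (xor (r X) (r w)) (X.testBit 0) := by
  rw [r_zoom (2 * K) (by omega) X w h2,
    testBit_top_true (2 * K - 1) w h1
      (by rw [show 2 * K - 1 + 1 = 2 * K by omega]; exact h2), Bool.and_true]

theorem up_pos (K X : ℕ) (hK : 10 ≤ K) :
    r (2 ^ (2 * K) * X + 2 ^ (K - 1) * (2 ^ K + 1)) ≠
      r (2 ^ (2 * K) * X + (2 ^ (K - 1) + 1) * (2 ^ K + 1)) := by
  obtain ⟨s1, s2, s3, s4, s5, s6⟩ := setup K hK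
  set P := 2 ^ K
  set L := 2 ^ (K - 1)
  have hPP : P * P = 2 * (P * L) := by rw [s1]; ring
  have hPL : P * 4 ≤ P * L := Nat.mul_le_mul_left _ (by omega)
  have e1 : L * (P + 1) = P * L + L := by ring
  have e2 : (L + 1) * (P + 1) = P * (L + 1) + (L + 1) := by ring
  have e2' : P * (L + 1) = P * L + P := by ring
  rw [block_top K X _ hK (by rw [e1]; omega) (by rw [e1]; omega),
    block_top K X _ hK (by rw [e2, e2']; omega) (by rw [e2, e2']; omega)]
  have v1 : r (L * (P + 1)) = false := by
    rw [e1, r_zoom K (by omega) L L (by omega), testBit_zero_of_even L (by omega)]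
    simp
  have v2 : r ((L + 1) * (P + 1)) = true := by
    rw [e2, r_zoom K (by omega) (L + 1) (L + 1) (by omega), testBit_zero_of_odd (L + 1) (by omega),
      testBit_top_true (K - 1) (L + 1) (by omega) (by rw [show K - 1 + 1 = K by omega]; omega)]
    simp
  rw [v1, v2]
  generalize r X = a1
  generalize X.testBit 0 = a2
  revert a1 a2; decide

theorem low_pos (K X m : ℕ) (hK : 10 ≤ K) (hm : m + 2 * (2 ^ K + 1) = 2 ^ (2 * K) * X) :
    r m ≠ r (m + (2 ^ K + 1)) := by
  obtain ⟨s1, s2, s3, s4, s5, s6⟩ := setup K hK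
  obtain ⟨Y, rfl⟩ : ∃ Y, X = Y + 1 := by
    rcases X with _ | Y
    · simp at hm
    · exact ⟨Y, rfl⟩
  set P := 2 ^ K with hP
  set L := 2 ^ (K - 1)
  have hPP : P * P = 2 * (P * L) := by rw [s1]; ring
  have hPL : P * 4 ≤ P * L := Nat.mul_le_mul_left _ (by omega)
  have hX : 2 ^ (2 * K) * (Y + 1) = 2 ^ (2 * K) * Y + P * P := by rw [mul_add, mul_one, s5]
  rw [hX] at hm
  have m3 : P * (P - 3) + 3 * P = P * P := by
    have : P - 3 + 3 = P := by omega
    calc P * (P - 3) + 3 * P = P * (P - 3 + 3) := by ring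
      _ = P * P := by rw [this]
  have m2 : P * (P - 2) + 2 * P = P * P := by
    have : P - 2 + 2 = P := by omega
    calc P * (P - 2) + 2 * P = P * (P - 2 + 2) := by ring
      _ = P * P := by rw [this]
  have e1 : m = 2 ^ (2 * K) * Y + (P * (P - 3) + (P - 2)) := by omega
  have e2 : m + (P + 1) = 2 ^ (2 * K) * Y + (P * (P - 2) + (P - 1)) := by omega
  rw [e2, e1, block_top K Y _ hK (by omega) (by omega),
    block_top K Y _ hK (by omega) (by omega)]
  have q4 : P = 4 * (2 ^ (K - 2)) := by omega
  set Q := 2 ^ (K - 2) - 1 with hQ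
  have r3 : r 3 = true := by
    have := r_two_mul_add_one 1
    rw [r_one] at this
    simpa using this
  have c1 : r (P - 1) = r Q := by
    have : P - 1 = 2 ^ 2 * Q + 3 := by omega
    rw [this, r_zoom 2 (by norm_num) Q 3 (by norm_num), r3, testBit_zero_of_odd Q (by omega),
      show Nat.testBit 3 (2 - 1) = true by decide]
    cases r Q <;> decide
  have c2 : r (P - 3) = r Q := by
    have : P - 3 = 2 ^ 2 * Q + 1 := by omega
    rw [this, r_zoom 2 (by norm_num) Q 1 (by norm_num), r_one,
      show Nat.testBit 1 (2 - 1) = false by decide]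
    simp
  have v1 : r (P * (P - 3) + (P - 2)) = xor (xor (r Q) (r (P - 2))) true := by
    rw [r_zoom K (by omega) (P - 3) (P - 2) (by omega), c2, testBit_zero_of_odd (P - 3) (by omega),
      testBit_top_true (K - 1) (P - 2) (by omega) (by rw [show K - 1 + 1 = K by omega]; omega)]
    simp
  have v2 : r (P * (P - 2) + (P - 1)) = xor (r (P - 2)) (r Q) := by
    rw [r_zoom K (by omega) (P - 2) (P - 1) (by omega), c1, testBit_zero_of_even (P - 2) (by omega)]
    simp
  rw [v1, v2]
  generalize r Y = a1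
  generalize Y.testBit 0 = a2
  generalize r Q = a3
  generalize r (P - 2) = a4
  revert a1 a2 a3 a4; decide

theorem sp_pos (K n l : ℕ) (hK : 10 ≤ K) (hm : Mono n (2 ^ K + 1) l) : l ≤ 2 ^ (K - 1) + 2 := by
  by_contra hcon
  obtain ⟨s1, s2, s3, s4, s5, s6⟩ := setup K hK
  set P := 2 ^ K with hP
  set L := 2 ^ (K - 1) with hL
  set q := 2 ^ (K - 2) with hq
  have hLpos : 0 < L := by omega
  have hPpos : 0 < P := by omega
  have hnL := Nat.mod_lt n hLpos
  obtain ⟨j1, hj1, hj1'⟩ : ∃ j1 ≤ q, (n + j1 * (P + 1)) % L + q < L := by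
    by_cases hc : n % L + q < L
    · exact ⟨0, by omega, by simpa using hc⟩
    · refine ⟨L - n % L, by omega, ?_⟩
      have hdm := Nat.div_add_mod n L
      have : n + (L - n % L) * (P + 1) = L * (n / L + 1 + 2 * (L - n % L)) := by
        rw [s1]
        have h1 : L * (n / L + 1 + 2 * (L - n % L)) = L * (n / L) + L + (L - n % L) * (2 * L) := by ring
        have h2 : (L - n % L) * (2 * L + 1) = (L - n % L) * (2 * L) + (L - n % L) := by ring
        rw [h1, h2]; omega
      rw [this, Nat.mul_mod_right]; omega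
  set n' := n + j1 * (P + 1) with hn'
  have hdm' := Nat.div_add_mod n' P
  have hml' := Nat.mod_lt n' hPpos
  have hmod : n' % P % L = n' % L := by
    apply Nat.mod_mod_of_dvd; rw [s1]; exact Dvd.intro_left 2 rfl
  obtain ⟨hu, hx⟩ := lp_pos K (n' / P) (n' % P) hK hml' (r n) (by rw [hmod]; exact hj1') (by
    intro i hi
    rw [hdm', hn', add_assoc, ← add_mul]
    exact hm _ (by omega))
  set u := n' % P with hudef
  set X := n' / P / P with hX
  have hxx : P * X + u = n' / P := by rw [← hx]; exact Nat.div_add_mod _ _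
  have hform : n' = 2 ^ (2 * K) * X + u * (P + 1) := by
    rw [s5]
    calc n' = P * (P * X + u) + u := by rw [hxx]; exact hdm'.symm
      _ = P * P * X + u * (P + 1) := by ring
  have hupper : l ≤ j1 + (L - u) + 1 := by
    by_contra hc
    have a1 := hm (j1 + (L - u)) (by omega)
    have a2 := hm (j1 + (L - u) + 1) (by omega)
    have e1 : n + (j1 + (L - u)) * (P + 1) = 2 ^ (2 * K) * X + L * (P + 1) := by
      have : n + (j1 + (L - u)) * (P + 1) = n' + (L - u) * (P + 1) := by rw [hn']; ring
      rw [this, hform, add_assoc, ← add_mul]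
      congr 2; omega
    have e2 : n + (j1 + (L - u) + 1) * (P + 1) = 2 ^ (2 * K) * X + (L + 1) * (P + 1) := by
      have : n + (j1 + (L - u) + 1) * (P + 1) = n + (j1 + (L - u)) * (P + 1) + (P + 1) := by ring
      rw [this, e1]; ring
    rw [e1] at a1
    rw [e2] at a2
    exact up_pos K X hK (a1.trans a2.symm)
  have hlower : j1 ≤ u + 1 := by
    by_contra hc
    have a1 := hm (j1 - u - 2) (by omega)
    have a2 := hm (j1 - u - 2 + 1) (by omega)
    set m := n + (j1 - u - 2) * (P + 1) with hmdef
    have e1 : m + 2 * (P + 1) = 2 ^ (2 * K) * X := by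
      have h1 : m + 2 * (P + 1) + u * (P + 1) = n' := by
        rw [hmdef, hn']
        have : j1 = (j1 - u - 2) + 2 + u := by omega
        conv_rhs => rw [this]
        ring
      rw [hform] at h1
      omega
    have e2 : n + (j1 - u - 2 + 1) * (P + 1) = m + (P + 1) := by rw [hmdef]; ring
    rw [e2] at a2
    exact low_pos K X m hK e1 (a1.trans a2.symm)
  omega

theorem up_neg (K X : ℕ) (hK : 10 ≤ K) :
    r (2 ^ (2 * K) * X + (2 ^ (K - 1) + 1) * (2 ^ K - 1)) ≠
      r (2 ^ (2 * K) * X + (2 ^ (K - 1) + 2) * (2 ^ K - 1)) := by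
  obtain ⟨s1, s2, s3, s4, s5, s6⟩ := setup K hK
  set P := 2 ^ K
  set L := 2 ^ (K - 1)
  have hPP : P * P = 2 * (P * L) := by rw [s1]; ring
  have hPL : P * 4 ≤ P * L := Nat.mul_le_mul_left _ (by omega)
  have hP1 : ∀ t, t * (P - 1) + t = P * t := by
    intro t
    have : P - 1 + 1 = P := by omega
    calc t * (P - 1) + t = (P - 1 + 1) * t := by ring
      _ = P * t := by rw [this]
  have g1 := hP1 (L + 1)
  have g2 := hP1 (L + 2)
  have e0 : P * (L + 1) = P * L + P := by ring
  have e0' : P * (L + 2) = P * L + 2 * P := by ring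
  have e1 : (L + 1) * (P - 1) = P * L + (L - 1) := by omega
  have e2 : (L + 2) * (P - 1) = P * (L + 1) + (L - 2) := by omega
  rw [e1, e2, block_top K X _ hK (by omega) (by omega), block_top K X _ hK (by omega) (by omega)]
  set q := 2 ^ (K - 2)
  have v1 : r (P * L + (L - 1)) = xor (r q) (!r (q - 1)) := by
    rw [r_zoom K (by omega) L (L - 1) (by omega), testBit_zero_of_even L (by omega)]
    have a1 : r L = r q := by rw [s2, r_two_mul]
    have a2 : r (L - 1) = !r (q - 1) := by
      rw [show L - 1 = 2 * (q - 1) + 1 by omega, r_two_mul_add_one,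
        testBit_zero_of_odd (q - 1) (by omega)]
      cases r (q - 1) <;> rfl
    rw [a1, a2]; simp
  have v2 : r (P * (L + 1) + (L - 2)) = xor (r q) (r (q - 1)) := by
    rw [r_zoom K (by omega) (L + 1) (L - 2) (by omega), testBit_top_false (K - 1) (L - 2) (by omega)]
    have a1 : r (L + 1) = r q := by
      rw [show L + 1 = 2 * q + 1 by omega, r_two_mul_add_one, testBit_zero_of_even q (by omega)]
      simp
    have a2 : r (L - 2) = r (q - 1) := by
      rw [show L - 2 = 2 * (q - 1) by omega, r_two_mul]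
    rw [a1, a2]; simp
  rw [v1, v2]
  generalize r X = a1
  generalize X.testBit 0 = a2
  generalize r q = a3
  generalize r (q - 1) = a4
  revert a1 a2 a3 a4; decide

theorem low_neg (K X m : ℕ) (hK : 10 ≤ K) (hm : m + 2 * (2 ^ K - 1) = 2 ^ (2 * K) * X) :
    r m ≠ r (m + (2 ^ K - 1)) := by
  obtain ⟨s1, s2, s3, s4, s5, s6⟩ := setup K hK
  obtain ⟨Y, rfl⟩ : ∃ Y, X = Y + 1 := by
    rcases X with _ | Y
    · simp at hm; omega
    · exact ⟨Y, rfl⟩
  set P := 2 ^ K with hP
  set L := 2 ^ (K - 1)
  have hPP : P * P = 2 * (P * L) := by rw [s1]; ring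
  have hPL : P * 4 ≤ P * L := Nat.mul_le_mul_left _ (by omega)
  have hX : 2 ^ (2 * K) * (Y + 1) = 2 ^ (2 * K) * Y + P * P := by rw [mul_add, mul_one, s5]
  rw [hX] at hm
  have m1 : P * (P - 1) + P = P * P := by
    have : P - 1 + 1 = P := by omega
    calc P * (P - 1) + P = P * (P - 1 + 1) := by ring
      _ = P * P := by rw [this]
  have m2 : P * (P - 2) + 2 * P = P * P := by
    have : P - 2 + 2 = P := by omega
    calc P * (P - 2) + 2 * P = P * (P - 2 + 2) := by ring
      _ = P * P := by rw [this]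
  have e1 : m = 2 ^ (2 * K) * Y + (P * (P - 2) + 2) := by omega
  have e2 : m + (P - 1) = 2 ^ (2 * K) * Y + (P * (P - 1) + 1) := by omega
  rw [e2, e1, block_top K Y _ hK (by omega) (by omega),
    block_top K Y _ hK (by omega) (by omega)]
  have r2 : r 2 = false := by
    have := r_two_mul 1
    rw [r_one] at this
    simpa using this
  have v1 : r (P * (P - 2) + 2) = r (L - 1) := by
    rw [r_zoom K (by omega) (P - 2) 2 (by omega), testBit_zero_of_even (P - 2) (by omega), r2,
      show P - 2 = 2 * (L - 1) by omega, r_two_mul]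
    simp
  have v2 : r (P * (P - 1) + 1) = !r (L - 1) := by
    rw [r_zoom K (by omega) (P - 1) 1 (by omega), r_one, testBit_top_false (K - 1) 1 (by omega),
      show P - 1 = 2 * (L - 1) + 1 by omega, r_two_mul_add_one,
      testBit_zero_of_odd (L - 1) (by omega)]
    cases r (L - 1) <;> simp
  rw [v1, v2]
  generalize r Y = a1
  generalize Y.testBit 0 = a2
  generalize r (L - 1) = a3
  revert a1 a2 a3; decide

theorem sp_neg (K n l : ℕ) (hK : 10 ≤ K) (hm : Mono n (2 ^ K - 1) l) :
    l ≤ 2 ^ (K - 1) + 3 ∧ (K % 2 = 0 → l ≤ 2 ^ (K - 1) + 2) := by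
  obtain ⟨s1, s2, s3, s4, s5, s6⟩ := setup K hK
  by_cases hcon : l ≤ 2 ^ (K - 1) + 2
  · exact ⟨by omega, fun _ => hcon⟩
  set P := 2 ^ K with hP
  set L := 2 ^ (K - 1) with hL
  set q := 2 ^ (K - 2) with hq
  have hLpos : 0 < L := by omega
  have hPpos : 0 < P := by omega
  have hnL := Nat.mod_lt n hLpos
  have hP1 : ∀ t, t * (P - 1) + t = P * t := by
    intro t
    have : P - 1 + 1 = P := by omega
    calc t * (P - 1) + t = (P - 1 + 1) * t := by ring
      _ = P * t := by rw [this]
  obtain ⟨j1, hj1, hj1'⟩ : ∃ j1 ≤ q, q ≤ (n + j1 * (P - 1)) % L := by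
    by_cases hc : q ≤ n % L
    · exact ⟨0, by omega, by simpa using hc⟩
    · refine ⟨n % L + 1, by omega, ?_⟩
      have hdm := Nat.div_add_mod n L
      have h1 := hP1 (n % L + 1)
      have h2 : P * (n % L + 1) = L * (2 * (n % L) + 1) + L := by rw [s1]; ring
      have : n + (n % L + 1) * (P - 1) = (L - 1) + L * (n / L + (2 * (n % L) + 1)) := by
        rw [mul_add]; omega
      rw [this, Nat.add_mul_mod_self_left, Nat.mod_eq_of_lt (by omega)]
      omega
  set n' := n + j1 * (P - 1) with hn'
  have hdm' := Nat.div_add_mod n' P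
  have hml' := Nat.mod_lt n' hPpos
  have hmod : n' % P % L = n' % L := by
    apply Nat.mod_mod_of_dvd; rw [s1]; exact Dvd.intro_left 2 rfl
  set v := P - 1 - n' % P with hv
  have hvu : P - 1 - v = n' % P := by omega
  have hvL : v % L = L - 1 - n' % L := by
    have h1 := Nat.div_add_mod (n' % P) L
    rw [hmod] at h1
    have h2 := Nat.mod_lt n' hLpos
    have h3 : n' % P / L < 2 := by rw [Nat.div_lt_iff_lt_mul hLpos]; omega
    have h4 : n' % P / L = 0 ∨ n' % P / L = 1 := by
      clear h1; generalize n' % P / L = z at h3; omega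
    rcases h4 with h4 | h4
    · rw [h4] at h1
      have : v = (L - 1 - n' % L) + L * 1 := by omega
      rw [this, Nat.add_mul_mod_self_left, Nat.mod_eq_of_lt (by omega)]
    · rw [h4] at h1
      rw [Nat.mod_eq_of_lt (by omega)]; omega
  obtain ⟨hu, hx⟩ := lp_neg K (n' / P) v hK (by omega) (r n) (by rw [hvL]; omega) (by
    intro i hi
    rw [hvu, hdm', hn', add_assoc, ← add_mul]
    exact hm _ (by omega))
  set X := n' / P / P with hX
  have hxx : P * X + v = n' / P := by rw [← hx]; exact Nat.div_add_mod _ _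
  have hform : n' = 2 ^ (2 * K) * X + (v + 1) * (P - 1) := by
    rw [s5]
    have h1 := hP1 (v + 1)
    have h2 : P * (v + 1) = P * v + P := by ring
    have h3 : n' = P * (P * X + v) + (P - 1 - v) := by rw [hxx, hvu]; exact hdm'.symm
    have h4 : P * (P * X + v) = P * P * X + P * v := by ring
    rw [h3, h4]; omega
  have hupper : l ≤ j1 + (L - v) + 1 := by
    by_contra hc
    have a1 := hm (j1 + (L - v)) (by omega)
    have a2 := hm (j1 + (L - v) + 1) (by omega)
    have e1 : n + (j1 + (L - v)) * (P - 1) = 2 ^ (2 * K) * X + (L + 1) * (P - 1) := by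
      have : n + (j1 + (L - v)) * (P - 1) = n' + (L - v) * (P - 1) := by rw [hn']; ring
      rw [this, hform, add_assoc, ← add_mul]
      congr 2; omega
    have e2 : n + (j1 + (L - v) + 1) * (P - 1) = 2 ^ (2 * K) * X + (L + 2) * (P - 1) := by
      have : n + (j1 + (L - v) + 1) * (P - 1) = n + (j1 + (L - v)) * (P - 1) + (P - 1) := by ring
      rw [this, e1]; ring
    rw [e1] at a1
    rw [e2] at a2
    exact up_neg K X hK (a1.trans a2.symm)
  have hlower : j1 ≤ v + 2 := by
    by_contra hc
    have a1 := hm (j1 - v - 3) (by omega)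
    have a2 := hm (j1 - v - 3 + 1) (by omega)
    set m := n + (j1 - v - 3) * (P - 1) with hmdef
    have e1 : m + 2 * (P - 1) = 2 ^ (2 * K) * X := by
      have h1 : m + 2 * (P - 1) + (v + 1) * (P - 1) = n' := by
        rw [hmdef, hn']
        have : j1 = (j1 - v - 3) + 2 + (v + 1) := by omega
        conv_rhs => rw [this]
        ring
      rw [hform] at h1
      omega
    have e2 : n + (j1 - v - 3 + 1) * (P - 1) = m + (P - 1) := by rw [hmdef]; ring
    rw [e2] at a2
    exact low_neg K X m hK e1 (a1.trans a2.symm)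
  refine ⟨by omega, ?_⟩
  intro hKev
  -- the term `t = 0` is excluded
  have hzero : j1 < v + 1 := by
    by_contra hc
    have a1 := hm (j1 - (v + 1)) (by omega)
    have a2 := hm j1 (by omega)
    have e1 : n + (j1 - (v + 1)) * (P - 1) = 2 ^ (2 * K) * X := by
      have h1 : n + (j1 - (v + 1)) * (P - 1) + (v + 1) * (P - 1) = n' := by
        rw [hn']
        have : j1 = (j1 - (v + 1)) + (v + 1) := by omega
        conv_rhs => rw [this]
        ring
      rw [hform] at h1
      omega
    have e2 : n + j1 * (P - 1) = P * (P * X + v) + (P - 1 - v) := by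
      rw [hxx, hvu]; exact hdm'.symm
    rw [e1] at a1
    rw [e2, r_zoom K (by omega) _ _ (by omega), r_zoom K (by omega) X v (by omega),
      compl K (by omega) v (by omega), testBit_top_false (K - 1) v (by omega),
      testBit_top_true (K - 1) (P - 1 - v) (by omega)
        (by rw [show K - 1 + 1 = K by omega]; omega)] at a2
    have b1 : (P * X + v).testBit 0 = v.testBit 0 := by
      rw [Nat.testBit_zero, Nat.testBit_zero]
      have : P * X = 2 * (L * X) := by rw [s1]; ring
      rw [this]
      congr 1; rw [eq_iff_iff]; omega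
    have b2 : decide ((K - 1) % 2 = 1) = true := by simp; omega
    have b3 : r (2 ^ (2 * K) * X) = r X := by
      have := r_zoom (2 * K) (by omega) X 0 (by positivity)
      rw [add_zero, r_zero, Nat.zero_testBit] at this
      simpa using this
    rw [b1, b2] at a2
    rw [b3] at a1
    rw [← a1] at a2
    revert a2
    generalize r X = c1
    generalize r v = c2
    generalize v.testBit 0 = c3
    generalize X.testBit 0 = c4
    revert c1 c2 c3 c4; decide
  omega

/-- for odd `K` the bound is attained -/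
theorem sp_attained (K : ℕ) (hK : 5 ≤ K) (hodd : K % 2 = 1) :
    Mono (2 ^ (2 * K) - (2 ^ K - 1)) (2 ^ K - 1) (2 ^ (K - 1) + 3) := by
  have s1 : 2 ^ K = 2 * 2 ^ (K - 1) := by
    conv_lhs => rw [show K = (K - 1) + 1 by omega, pow_succ]
    ring
  have s4 : 16 ≤ 2 ^ (K - 1) := by
    have : 2 ^ 4 ≤ 2 ^ (K - 1) := Nat.pow_le_pow_right (by norm_num) (by omega)
    norm_num at this; exact this
  have s5 : 2 ^ (2 * K) = 2 ^ K * 2 ^ K := by rw [← pow_add]; congr 1; ring
  have s6 : 2 ^ (2 * K - 1) = 2 ^ K * 2 ^ (K - 1) := by rw [← pow_add]; congr 1; omega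
  set P := 2 ^ K with hP
  set L := 2 ^ (K - 1) with hL
  have hPP : P * P = 2 * (P * L) := by rw [s1]; ring
  have hPL : P * 4 ≤ P * L := Nat.mul_le_mul_left _ (by omega)
  have hP1 : ∀ t, t * (P - 1) + t = P * t := by
    intro t
    have : P - 1 + 1 = P := by omega
    calc t * (P - 1) + t = (P - 1 + 1) * t := by ring
      _ = P * t := by rw [this]
  have m1 : P * (P - 1) + P = P * P := by
    have : P - 1 + 1 = P := by omega
    calc P * (P - 1) + P = P * (P - 1 + 1) := by ring
      _ = P * P := by rw [this]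
  have hκ : decide ((K - 1) % 2 = 1) = false := by simp; omega
  have rP1 : r (P - 1) = false := by
    have := compl K (by omega) 0 (by positivity)
    rw [Nat.sub_zero, r_zero, Nat.zero_testBit, Nat.zero_testBit, hκ] at this
    exact this
  have rL1 : r (L - 1) = true := by
    have := compl (K - 1) (by omega) 0 (by positivity)
    have hκ2 : decide ((K - 1 - 1) % 2 = 1) = true := by simp; omega
    rw [Nat.sub_zero, r_zero, Nat.zero_testBit, Nat.zero_testBit, hκ2] at this
    exact this
  have hn0 : 2 ^ (2 * K) - (P - 1) = P * (P - 1) + 1 := by rw [s5]; omega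
  have hrn : r (2 ^ (2 * K) - (P - 1)) = false := by
    rw [hn0, r_zoom K (by omega) (P - 1) 1 (by omega), rP1, r_one,
      testBit_top_false (K - 1) 1 (by omega)]
    simp
  intro j hj
  rw [hrn]
  rcases j with _ | t
  · rw [Nat.zero_mul, Nat.add_zero]; exact hrn
  · have e1 : 2 ^ (2 * K) - (P - 1) + (t + 1) * (P - 1) = 2 ^ (2 * K) * 1 + t * (P - 1) := by
      have : (t + 1) * (P - 1) = t * (P - 1) + (P - 1) := by ring
      rw [this, mul_one, s5]; omega
    rw [e1]
    have g := hP1 t
    by_cases hLt : t ≤ L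
    · have hlt : t * (P - 1) < P * L := by
        have h1 : P * t ≤ P * L := Nat.mul_le_mul_left _ hLt
        rcases Nat.eq_zero_or_pos t with h0 | h0
        · rw [h0]; simp; omega
        · omega
      rw [r_zoom (2 * K) (by omega) 1 _ (by rw [s5]; omega), r_one,
        testBit_top_false (2 * K - 1) _ (by rw [s6]; exact hlt)]
      rcases t with _ | y
      · rw [Nat.zero_mul, r_zero]; simp
      · have e2 : (y + 1) * (P - 1) = P * y + (P - 1 - y) := by
          have : P * (y + 1) = P * y + P := by ring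
          omega
        rw [e2, r_zoom K (by omega) y _ (by omega), compl K (by omega) y (by omega), hκ,
          testBit_top_false (K - 1) y (by omega),
          testBit_top_true (K - 1) (P - 1 - y) (by omega)
            (by rw [show K - 1 + 1 = K by omega]; omega)]
        generalize r y = a1
        generalize y.testBit 0 = a2
        revert a1 a2; decide
    · have ht : t = L + 1 := by omega
      subst ht
      have e0 : P * (L + 1) = P * L + P := by ring
      have e2 : (L + 1) * (P - 1) = P * L + (L - 1) := by omega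
      rw [e2, r_zoom (2 * K) (by omega) 1 _ (by rw [s5]; omega), r_one,
        testBit_top_true (2 * K - 1) _ (by rw [s6]; omega)
          (by rw [show 2 * K - 1 + 1 = 2 * K by omega, s5]; omega)]
      have e3 : P * L + (L - 1) = 2 ^ (2 * K - 1) * 1 + (L - 1) := by rw [s6]; ring
      rw [e3, r_zoom (2 * K - 1) (by omega) 1 (L - 1) (by rw [s6]; omega), r_one, rL1,
        testBit_top_false (2 * K - 1 - 1) (L - 1) (by
          have : L ≤ 2 ^ (2 * K - 1 - 1) := Nat.pow_le_pow_right (by norm_num) (by omega)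
          omega)]
      decide

end Pool.Agent.RS
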