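import Pool.Agent.RS.NonSpecial
import Pool.Agent.RS.Special2
import Pool.Agent.RS.Small

/-!
# Even differences, and the main bound
-/

namespace Pool.Agent.RS

/-- halving an even difference -/
theorem mono_half (n d l : ℕ) (hm : Mono n (2 * d) l) : ∃ n', Mono n' d l := by
  rcases Nat.eq_zero_or_pos l with rfl | hl
  · exact ⟨0, fun j hj => by omega⟩
  rcases Nat.mod_two_eq_zero_or_one n with hn | hn
  · refine ⟨n / 2, fun j hj => ?_⟩
    have h := hm j hj
    have e1 : n + j * (2 * d) = 2 * (n / 2 + j * d) := by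
      rw [mul_add, show j * (2 * d) = 2 * (j * d) by ring]; omega
    have e2 : n = 2 * (n / 2) := by omega
    rw [e1, r_two_mul] at h
    rw [h]
    conv_lhs => rw [e2]
    rw [r_two_mul]
  · set m := n / 2 with hmdef
    have e2 : n = 2 * m + 1 := by omega
    have key : ∀ j < l, xor (r (m + j * d)) ((m + j * d).testBit 0) =
        xor (r m) (m.testBit 0) := by
      intro j hj
      have h := hm j hj
      have e1 : n + j * (2 * d) = 2 * (m + j * d) + 1 := by
        rw [mul_add, show j * (2 * d) = 2 * (j * d) by ring]; omega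
      rw [e1, r_two_mul_add_one] at h
      rw [h, e2, r_two_mul_add_one]
    rcases Nat.mod_two_eq_zero_or_one d with hd | hd
    · refine ⟨m, fun j hj => ?_⟩
      have h := key j hj
      have e3 : (m + j * d).testBit 0 = m.testBit 0 := by
        rw [Nat.testBit_zero, Nat.testBit_zero]
        congr 1
        rw [eq_iff_iff]
        obtain ⟨c, hc⟩ : ∃ c, d = 2 * c := ⟨d / 2, by omega⟩
        have : j * d = 2 * (j * c) := by rw [hc]; ring
        omega
      rw [e3] at h
      revert h
      generalize r (m + j * d) = a1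
      generalize r m = a2
      generalize m.testBit 0 = a3
      revert a1 a2 a3; decide
    · -- reflection
      set T := m + (l - 1) * d with hT
      obtain ⟨K, hK1, hK⟩ : ∃ K, 2 ≤ K ∧ T < 2 ^ (K - 1) :=
        ⟨T + 2, by omega, by
          have : T < 2 ^ T := Nat.lt_two_pow_self
          have h2 : 2 ^ T ≤ 2 ^ (T + 2 - 1) := Nat.pow_le_pow_right (by norm_num) (by omega)
          omega⟩
      have hKK : 2 ^ K = 2 * 2 ^ (K - 1) := by
        conv_lhs => rw [show K = (K - 1) + 1 by omega, pow_succ]
        ring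
      have hz : ∀ x ≤ T, x.testBit (K - 1) = false := by
        intro x hx
        exact Nat.testBit_lt_two_pow (by omega)
      have hrev : ∀ i < l, r (2 ^ K - 1 - (m + i * d)) =
          xor (xor (r m) (m.testBit 0)) (decide ((K - 1) % 2 = 1)) := by
        intro i hi
        have h1 : i * d ≤ (l - 1) * d := Nat.mul_le_mul_right _ (by omega)
        rw [compl K (by omega) (m + i * d) (by omega), hz _ (by omega), key i hi]
        cases (xor (r m) (m.testBit 0)) <;> cases (decide ((K - 1) % 2 = 1)) <;> rfl
      refine ⟨2 ^ K - 1 - T, fun j hj => ?_⟩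
      have e3 : 2 ^ K - 1 - T + j * d = 2 ^ K - 1 - (m + (l - 1 - j) * d) := by
        have h1 : (l - 1) * d = (l - 1 - j) * d + j * d := by
          rw [← add_mul]; congr 1; omega
        have h2 : T < 2 ^ K := by omega
        omega
      rw [e3, hrev (l - 1 - j) (by omega), hT, hrev (l - 1) (by omega)]

theorem mono_le (n d l l' : ℕ) (h : l' ≤ l) (hm : Mono n d l) : Mono n d l' :=
  fun j hj => hm j (by omega)

theorem odd_bound (d n l : ℕ) (hodd : d % 2 = 1) (hd : 23 ≤ d) (hm : Mono n d l) :
    2 * l ≤ d + 7 ∧ (2 * l = d + 7 → ∃ k, 5 ≤ k ∧ k % 2 = 1 ∧ d = 2 ^ k - 1) := by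
  rcases Nat.lt_or_ge d 1025 with h | h
  · have hs := small_odd d n hodd h
    have hl : l < lreq d := by
      by_contra hc
      exact hs (mono_le n d l _ (by omega) hm)
    unfold lreq at hl
    rw [if_neg (by omega)] at hl
    split_ifs at hl with h1
    · refine ⟨by omega, fun _ => ?_⟩
      rcases h1 with rfl | rfl | rfl
      · exact ⟨5, by norm_num⟩
      · exact ⟨7, by norm_num⟩
      · exact ⟨9, by norm_num⟩
    · exact ⟨by omega, fun _ => by omega⟩
  · by_cases hc : d + 7 ≤ 2 * l
    · obtain ⟨K, hK, h1 | h1⟩ := nonspecial d n l hodd h hm hc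
      · exfalso
        rw [h1] at hm
        have := sp_pos K n l hK hm
        obtain ⟨s1, -⟩ := setup K hK
        omega
      · have h2 : d = 2 ^ K - 1 := by omega
        rw [h2] at hm
        obtain ⟨a1, a2⟩ := sp_neg K n l hK hm
        obtain ⟨s1, -⟩ := setup K hK
        refine ⟨by omega, fun _ => ⟨K, by omega, ?_, h2⟩⟩
        by_contra hKe
        have := a2 (by omega)
        omega
    · exact ⟨by omega, fun _ => by omega⟩

theorem odd_small_bound (d n l : ℕ) (hodd : d % 2 = 1) (hd : d < 23) (hm : Mono n d l) :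
    l ≤ 15 := by
  have hs := small_odd d n hodd (by omega)
  unfold lreq at hs
  rw [if_pos hd] at hs
  by_contra hc
  exact hs (mono_le n d l _ (by omega) hm)

theorem weak_bound (d : ℕ) (hd : 1 ≤ d) : ∀ n l, Mono n d l → 2 * l ≤ d + 7 ∨ l ≤ 15 := by
  induction d using Nat.strong_induction_on with
  | _ d ih =>
    intro n l hm
    rcases Nat.mod_two_eq_zero_or_one d with h | h
    · have e : d = 2 * (d / 2) := by omega
      rw [e] at hm
      obtain ⟨n', hm'⟩ := mono_half n (d / 2) l hm
      rcases ih (d / 2) (by omega) (by omega) n' l hm' with h1 | h1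
      · left; omega
      · right; exact h1
    · rcases Nat.lt_or_ge d 23 with h1 | h1
      · right; exact odd_small_bound d n l h h1 hm
      · left; exact (odd_bound d n l h h1 hm).1

theorem main_bound (d n l : ℕ) (hd : 23 ≤ d) (hm : Mono n d l) :
    2 * l ≤ d + 7 ∧ (2 * l = d + 7 → ∃ k, 5 ≤ k ∧ k % 2 = 1 ∧ d = 2 ^ k - 1) := by
  rcases Nat.mod_two_eq_zero_or_one d with h | h
  · refine ⟨?_, fun _ => by omega⟩
    rcases weak_bound d (by omega) n l hm with h1 | h1 <;> omega
  · exact odd_bound d n l h hd hm

end Pool.Agent.RS
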