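import Pool.Agent.RS.Local

/-!
# Bit masks, samples and the reachability check
-/

namespace Pool.Agent.RS

/-- monochromatic progression -/
def Mono (n d l : ℕ) : Prop := ∀ j < l, r (n + j * d) = r n

/-- `b` is a good sample for the difference `d` -/
def Good (d b : ℕ) : Prop := ∀ i < 16, r (b + i * d) = r (b + (i % 2) * d)

theorem sample_good (n d l s j : ℕ) (hs : 1 ≤ s) (hm : Mono n d l)
    (hj : j + 15 * 2 ^ s < l) : Good d ((n + j * d) / 2 ^ s) := by
  intro i hi
  set b := (n + j * d) / 2 ^ s with hb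
  set u := (n + j * d) % 2 ^ s with hu
  have hu2 : u < 2 ^ s := Nat.mod_lt _ (by positivity)
  have hsplit : 2 ^ s * b + u = n + j * d := Nat.div_add_mod _ _
  have key : ∀ i, i ≤ 15 → xor (xor (r (b + i * d)) (r u)) ((b + i * d).testBit 0 && u.testBit (s - 1)) = r n := by
    intro i hi
    rw [← r_zoom s hs _ _ hu2]
    have : 2 ^ s * (b + i * d) + u = n + (j + 2 ^ s * i) * d := by
      calc 2 ^ s * (b + i * d) + u = (2 ^ s * b + u) + 2 ^ s * i * d := by ring
        _ = n + (j + 2 ^ s * i) * d := by rw [hsplit]; ring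
    rw [this]
    apply hm
    have : 2 ^ s * i ≤ 2 ^ s * 15 := Nat.mul_le_mul_left _ hi
    omega
  have k1 := key i (by omega)
  have k2 := key (i % 2) (by omega)
  have hbit : (b + i * d).testBit 0 = (b + (i % 2) * d).testBit 0 := by
    rw [Nat.testBit_zero, Nat.testBit_zero]
    congr 1
    rw [eq_iff_iff]
    have : i * d = (i % 2) * d + 2 * (i / 2 * d) := by
      have := Nat.div_add_mod i 2
      calc i * d = (2 * (i / 2) + i % 2) * d := by rw [this]
        _ = _ := by ring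
    rw [this]; omega
  rw [hbit] at k1
  revert k1 k2
  generalize r (b + i * d) = a1
  generalize r (b + (i % 2) * d) = a2
  generalize r u = a3
  generalize r n = a4
  generalize (b + i % 2 * d).testBit 0 = a5
  generalize u.testBit (s - 1) = a6
  revert a1 a2 a3 a4 a5 a6; decide

theorem pair_good (d b h : ℕ) (h1 : Good d b) (h2 : Good d (b + h)) :
    ∀ i < 16, f h (b + i * d) = f h (b + (i % 2) * d) := by
  intro i hi
  have a := h1 i hi
  have a' := h2 i hi
  unfold f
  have e1 : b + i * d + h = b + h + i * d := by ring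
  have e2 : b + (i % 2) * d + h = b + h + (i % 2) * d := by ring
  rw [e1, e2, a, a']

theorem f_periodic (w h y : ℕ) (hk : y % 2 ^ w + h < 2 ^ w) : f h y = f h (y % 2 ^ (w + 1)) := by
  unfold f
  set Z := y / 2 ^ (w + 1)
  set y' := y % 2 ^ (w + 1) with hy'
  have hlt : y' < 2 ^ (w + 1) := Nat.mod_lt _ (by positivity)
  have hy : 2 ^ (w + 1) * Z + y' = y := Nat.div_add_mod _ _
  have hmod : y' % 2 ^ w = y % 2 ^ w := by
    rw [hy', Nat.mod_mod_of_dvd]; exact pow_dvd_pow 2 (by omega)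
  have hdecomp : 2 ^ w * (y' / 2 ^ w) + y' % 2 ^ w = y' := Nat.div_add_mod _ _
  have hdiv : (y' + h) / 2 ^ w = y' / 2 ^ w := by
    have hpos : 0 < 2 ^ w := by positivity
    have : y' + h = (y' % 2 ^ w + h) + 2 ^ w * (y' / 2 ^ w) := by omega
    rw [this, Nat.add_mul_div_left _ _ hpos, Nat.div_eq_of_lt (by rw [hmod]; exact hk)]
    omega
  have hlt2 : y' + h < 2 ^ (w + 1) := by
    have h1 : y' / 2 ^ w < 2 := by
      rw [Nat.div_lt_iff_lt_mul (by positivity)]; rw [pow_succ] at hlt; omega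
    have h2 : 2 ^ w * (y' / 2 ^ w) ≤ 2 ^ w * 1 := Nat.mul_le_mul_left _ (by omega)
    have h3 : y' + h = (y' % 2 ^ w + h) + 2 ^ w * (y' / 2 ^ w) := by omega
    rw [pow_succ]; omega
  have hbit : (y' + h).testBit w = y'.testBit w := by
    rw [Nat.testBit_eq_decide_div_mod_eq, Nat.testBit_eq_decide_div_mod_eq, hdiv]
  have z1 := r_zoom (w + 1) (by omega) Z y' hlt
  have z2 := r_zoom (w + 1) (by omega) Z (y' + h) hlt2
  simp only [Nat.add_sub_cancel] at z1 z2
  rw [hbit] at z2
  have e1 : y + h = 2 ^ (w + 1) * Z + (y' + h) := by omega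
  rw [e1, z2, ← hy, z1]
  generalize r Z = a1
  generalize r y' = a2
  generalize r (y' + h) = a3
  generalize (Z.testBit 0 && y'.testBit w) = a4
  revert a1 a2 a3 a4; decide

/-! ### masks -/

def Tm (N : ℕ) : ℕ := if N = 0 then 0 else (2 ^ (2 ^ (N - 1)) - 1) <<< (2 ^ (N - 1))

/-- mask of `r` on `[0, 2^N)` -/
def Rm : ℕ → ℕ
  | 0 => 0
  | N + 1 => Rm N ||| ((Rm N ^^^ Tm N) <<< (2 ^ N))

theorem testBit_Tm (N y : ℕ) : (Tm N).testBit y = (decide (y < 2 ^ N) && decide (N ≠ 0) && y.testBit (N - 1)) := by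
  unfold Tm
  split_ifs with h
  · simp [h]
  · obtain ⟨M, rfl⟩ : ∃ M, N = M + 1 := ⟨N - 1, by omega⟩
    simp only [Nat.add_sub_cancel]
    rw [Nat.testBit_shiftLeft, Nat.testBit_two_pow_sub_one]
    have hp : 2 ^ (M + 1) = 2 ^ M + 2 ^ M := by rw [pow_succ]; ring
    by_cases h1 : y ≥ 2 ^ M
    · by_cases h2 : y < 2 ^ (M + 1)
      · have h3 : y.testBit M = true := by
          rw [Nat.testBit_eq_decide_div_mod_eq]
          have : y / 2 ^ M = 1 := by
            apply Nat.div_eq_of_lt_le <;> omega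
          simp [this]
        have h4 : y - 2 ^ M < 2 ^ M := by omega
        simp [h1, h2, h3, h4]
      · have h4 : ¬ (y - 2 ^ M < 2 ^ M) := by omega
        simp [h2, h4]
    · have h3 : y.testBit M = false := by
        apply Nat.testBit_lt_two_pow; omega
      simp [h3]; omega

theorem testBit_Rm (N y : ℕ) : (Rm N).testBit y = (decide (y < 2 ^ N) && r y) := by
  induction N generalizing y with
  | zero =>
    simp only [Rm, Nat.zero_testBit, pow_zero]
    by_cases h : y < 1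
    · have : y = 0 := by omega
      subst this; simp [r_zero]
    · simp [h]
  | succ N ih =>
    rw [Rm, Nat.testBit_or, ih, Nat.testBit_shiftLeft, Nat.testBit_xor, ih, testBit_Tm]
    have hp : 2 ^ (N + 1) = 2 ^ N + 2 ^ N := by rw [pow_succ]; ring
    by_cases h1 : y < 2 ^ N
    · have h2 : y < 2 ^ (N + 1) := by omega
      have h3 : ¬ (y ≥ 2 ^ N) := by omega
      simp [h1, h2, h3]
    · by_cases h2 : y < 2 ^ (N + 1)
      · have h3 : y ≥ 2 ^ N := by omega
        have h4 : y - 2 ^ N < 2 ^ N := by omega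
        have hy : y = 2 ^ N * 1 + (y - 2 ^ N) := by omega
        have r1 : r 1 = false := by simpa [r_zero] using r_two_mul_add_one 0
        rcases Nat.eq_zero_or_pos N with rfl | hN
        · have : y = 1 := by
            simp only [pow_zero, zero_add, pow_one] at h1 h2; omega
          subst this
          simp [r1, r_zero]
        · have hz := r_zoom N hN 1 (y - 2 ^ N) h4
          rw [← hy, r1] at hz
          have hN' : N ≠ 0 := by omega
          have t1 : Nat.testBit 1 0 = true := by decide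
          rw [hz, t1]
          simp only [h1, h2, h3, h4, hN', decide_true, decide_false, Bool.false_and, Bool.true_and,
            Bool.false_or, ne_eq, not_false_eq_true, Bool.false_xor, ge_iff_le]
      · have h4 : ¬ (y - 2 ^ N < 2 ^ N) := by omega
        simp [h1, h2, h4]

def dbl (base len : ℕ) : ℕ → ℕ
  | 0 => base
  | j + 1 => dbl base len j ||| (dbl base len j <<< (len * 2 ^ j))

theorem testBit_dbl (base len : ℕ) (hb : base < 2 ^ len) (j y : ℕ) :
    (dbl base len j).testBit y = (decide (y < len * 2 ^ j) && base.testBit (y % len)) := by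
  induction j generalizing y with
  | zero =>
    simp only [dbl, pow_zero, mul_one]
    by_cases h : y < len
    · rw [Nat.mod_eq_of_lt h]; simp [h]
    · have : base.testBit y = false := by
        apply Nat.testBit_lt_two_pow
        exact lt_of_lt_of_le hb (Nat.pow_le_pow_right (by norm_num) (by omega))
      simp [h, this]
  | succ j ih =>
    rw [dbl, Nat.testBit_or, Nat.testBit_shiftLeft, ih, ih]
    have hp : len * 2 ^ (j + 1) = len * 2 ^ j + len * 2 ^ j := by rw [pow_succ]; ring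
    by_cases h1 : y < len * 2 ^ j
    · have h2 : y < len * 2 ^ (j + 1) := by omega
      have h3 : ¬ (y ≥ len * 2 ^ j) := by omega
      simp [h1, h2, h3]
    · have h3 : y ≥ len * 2 ^ j := by omega
      have hmod : (y - len * 2 ^ j) % len = y % len := by
        conv_rhs => rw [show y = (y - len * 2 ^ j) + len * 2 ^ j by omega]
        rw [Nat.add_mul_mod_self_left]
      rw [hmod]
      by_cases h2 : y < len * 2 ^ (j + 1)
      · have h4 : y - len * 2 ^ j < len * 2 ^ j := by omega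
        simp [h1, h2, h3, h4]
      · have h4 : ¬ (y - len * 2 ^ j < len * 2 ^ j) := by omega
        simp [h1, h2, h4]

/-- positions `y < 2^N` with `y % 2^w + h < 2^w` -/
def Km (w N h : ℕ) : ℕ := dbl (2 ^ (2 ^ w - h) - 1) (2 ^ w) (N - w)

theorem testBit_Km (w N h y : ℕ) (hw : w ≤ N) : (Km w N h).testBit y = (decide (y < 2 ^ N) && decide (y % 2 ^ w + h < 2 ^ w)) := by
  unfold Km
  rw [testBit_dbl]
  · rw [Nat.testBit_two_pow_sub_one, ← pow_add, Nat.add_sub_cancel' hw]
    congr 1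
    congr 1
    rw [eq_iff_iff]; omega
  · have h1 : 2 ^ (2 ^ w - h) ≤ 2 ^ (2 ^ w) := Nat.pow_le_pow_right (by norm_num) (Nat.sub_le _ _)
    have h2 : 0 < 2 ^ (2 ^ w - h) := by positivity
    omega

def A1m (w N h : ℕ) : ℕ := Km w N h &&& (Rm N ^^^ (Rm N >>> h))
def A0m (w N h : ℕ) : ℕ := Km w N h ^^^ A1m w N h

theorem A1m_sound (w N h y : ℕ) (hw : w ≤ N) (ht : (A1m w N h).testBit y = true) :
    y % 2 ^ w + h < 2 ^ w ∧ f h y = true := by
  unfold A1m at ht
  rw [Nat.testBit_and, testBit_Km w N h y hw, Nat.testBit_xor, Nat.testBit_shiftRight,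
    testBit_Rm, testBit_Rm] at ht
  simp only [Bool.and_eq_true, decide_eq_true_eq] at ht
  obtain ⟨⟨h1, h2⟩, h3⟩ := ht
  have h4 : h + y < 2 ^ N := by
    obtain ⟨M, rfl⟩ := Nat.exists_eq_add_of_le hw
    rw [pow_add] at h1 ⊢
    have hq : y / 2 ^ w < 2 ^ M := by
      rw [Nat.div_lt_iff_lt_mul (by positivity)]; rw [mul_comm]; exact h1
    have := Nat.div_add_mod y (2 ^ w)
    have h5 : 2 ^ w * (y / 2 ^ w) + 2 ^ w ≤ 2 ^ w * 2 ^ M := by
      calc 2 ^ w * (y / 2 ^ w) + 2 ^ w = 2 ^ w * (y / 2 ^ w + 1) := by ring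
        _ ≤ 2 ^ w * 2 ^ M := Nat.mul_le_mul_left _ (by omega)
    omega
  refine ⟨h2, ?_⟩
  unfold f
  simp only [h1, h4, decide_true, Bool.true_and] at h3
  rw [add_comm y h]; exact h3

theorem A0m_sound (w N h y : ℕ) (hw : w ≤ N) (ht : (A0m w N h).testBit y = true) :
    y % 2 ^ w + h < 2 ^ w ∧ f h y = false := by
  unfold A0m A1m at ht
  rw [Nat.testBit_xor, Nat.testBit_and, testBit_Km w N h y hw, Nat.testBit_xor,
    Nat.testBit_shiftRight, testBit_Rm, testBit_Rm] at ht
  by_cases h1 : y < 2 ^ N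
  swap
  · simp [h1] at ht
  by_cases h2 : y % 2 ^ w + h < 2 ^ w
  swap
  · simp [h2] at ht
  refine ⟨h2, ?_⟩
  have h4 : h + y < 2 ^ N := by
    obtain ⟨M, rfl⟩ := Nat.exists_eq_add_of_le hw
    rw [pow_add] at h1 ⊢
    have hq : y / 2 ^ w < 2 ^ M := by
      rw [Nat.div_lt_iff_lt_mul (by positivity)]; rw [mul_comm]; exact h1
    have := Nat.div_add_mod y (2 ^ w)
    have h5 : 2 ^ w * (y / 2 ^ w) + 2 ^ w ≤ 2 ^ w * 2 ^ M := by
      calc 2 ^ w * (y / 2 ^ w) + 2 ^ w = 2 ^ w * (y / 2 ^ w + 1) := by ring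
        _ ≤ 2 ^ w * 2 ^ M := Nat.mul_le_mul_left _ (by omega)
    omega
  unfold f
  simp only [h1, h2, h4, decide_true, Bool.true_and] at ht
  rw [add_comm y h]
  revert ht
  generalize r y = a1
  generalize r (h + y) = a2
  revert a1 a2; decide

def orS (A δ : ℕ) : ℕ → ℕ → ℕ
  | 0, _ => 0
  | k + 1, p => (A >>> (p * δ)) ||| orS A δ k (p + 2)

theorem orS_sound (A δ k p β : ℕ) (h : (orS A δ k p).testBit β = true) :
    ∃ t < k, A.testBit (β + (p + 2 * t) * δ) = true := by
  induction k generalizing p with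
  | zero => simp [orS] at h
  | succ k ih =>
    rw [orS, Nat.testBit_or, Bool.or_eq_true, Nat.testBit_shiftRight] at h
    rcases h with h | h
    · exact ⟨0, by omega, by rw [mul_zero, add_zero, add_comm]; exact h⟩
    · obtain ⟨t, ht, h'⟩ := ih _ h
      exact ⟨t + 1, by omega, by rw [show p + 2 * (t + 1) = p + 2 + 2 * t by ring]; exact h'⟩

def notok (w N h δ : ℕ) : ℕ :=
  (orS (A1m w N h) δ 8 0 &&& orS (A0m w N h) δ 8 0) |||
  (orS (A1m w N h) δ 8 1 &&& orS (A0m w N h) δ 8 1)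

theorem notok_sound (w N h δ d b : ℕ) (hw : w ≤ N) (hδ : d % 2 ^ (w + 1) = δ)
    (g1 : Good d b) (g2 : Good d (b + h)) :
    (notok w N h δ).testBit (b % 2 ^ (w + 1)) = false := by
  by_contra hne
  rw [Bool.not_eq_false] at hne
  unfold notok at hne
  have hp := pair_good d b h g1 g2
  have transfer : ∀ i, (b % 2 ^ (w + 1) + i * δ) % 2 ^ w + h < 2 ^ w →
      f h (b % 2 ^ (w + 1) + i * δ) = f h (b + i * d) := by
    intro i hk
    have hcong : (b % 2 ^ (w + 1) + i * δ) % 2 ^ (w + 1) = (b + i * d) % 2 ^ (w + 1) := by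
      rw [← hδ]
      have : b % 2 ^ (w + 1) + i * (d % 2 ^ (w + 1)) ≡ b + i * d [MOD 2 ^ (w + 1)] :=
        Nat.ModEq.add (Nat.mod_modEq _ _) (Nat.ModEq.mul_left _ (Nat.mod_modEq _ _))
      exact this
    have hcong2 : (b % 2 ^ (w + 1) + i * δ) % 2 ^ w = (b + i * d) % 2 ^ w := by
      have hd : 2 ^ w ∣ 2 ^ (w + 1) := pow_dvd_pow 2 (by omega)
      rw [← Nat.mod_mod_of_dvd _ hd, hcong, Nat.mod_mod_of_dvd _ hd]
    rw [f_periodic w h _ hk, hcong, ← f_periodic w h (b + i * d) (by rw [← hcong2]; exact hk)]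
  have clash : ∀ p, p < 2 → (orS (A1m w N h) δ 8 p).testBit (b % 2 ^ (w + 1)) = true →
      (orS (A0m w N h) δ 8 p).testBit (b % 2 ^ (w + 1)) = true → False := by
    intro p hp2 h1 h0
    obtain ⟨t, ht, h1⟩ := orS_sound _ _ _ _ _ h1
    obtain ⟨t', ht', h0⟩ := orS_sound _ _ _ _ _ h0
    obtain ⟨k1, v1⟩ := A1m_sound _ _ _ _ hw h1
    obtain ⟨k0, v0⟩ := A0m_sound _ _ _ _ hw h0
    rw [transfer _ k1, hp _ (by omega)] at v1
    rw [transfer _ k0, hp _ (by omega)] at v0
    have e1 : (p + 2 * t) % 2 = p := by omega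
    have e0 : (p + 2 * t') % 2 = p := by omega
    rw [e1] at v1
    rw [e0] at v0
    rw [v1] at v0
    exact absurd v0 (by decide)
  rw [Nat.testBit_or, Nat.testBit_and, Nat.testBit_and, Bool.or_eq_true, Bool.and_eq_true,
    Bool.and_eq_true] at hne
  rcases hne with ⟨h1, h0⟩ | ⟨h1, h0⟩
  · exact clash 0 (by norm_num) h1 h0
  · exact clash 1 (by norm_num) h1 h0

def stepS (S nh nh1 h : ℕ) : ℕ :=
  ((S ^^^ (S &&& nh)) <<< h) ||| ((S ^^^ (S &&& nh1)) <<< (h + 1))

def loop (nh nh1 h Hi : ℕ) : ℕ → ℕ → Bool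
  | 0, S => S != 0
  | k + 1, S => if (S &&& Hi) != 0 then true else loop nh nh1 h Hi k (stepS S nh nh1 h)

def Hi (w h : ℕ) : ℕ :=
  ((2 ^ (h + 1) - 1) <<< (2 ^ w - h - 1)) ||| (((2 ^ (h + 1) - 1) <<< (2 ^ w - h - 1)) <<< (2 ^ w))

def S0 (w h : ℕ) : ℕ := (2 ^ (h + 1) - 1) ||| ((2 ^ (h + 1) - 1) <<< (2 ^ w))

def reach (w N δ h fuel : ℕ) : Bool :=
  loop (notok w N h δ) (notok w N (h + 1) δ) h (Hi w h) fuel (S0 w h)

theorem testBit_S0 (w h β : ℕ) (hβ : β < 2 ^ (w + 1)) (hh : β % 2 ^ w ≤ h) :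
    (S0 w h).testBit β = true := by
  unfold S0
  rw [Nat.testBit_or, Nat.testBit_shiftLeft, Nat.testBit_two_pow_sub_one,
    Nat.testBit_two_pow_sub_one]
  have hp : 2 ^ (w + 1) = 2 ^ w + 2 ^ w := by rw [pow_succ]; ring
  by_cases h1 : β < 2 ^ w
  · rw [Nat.mod_eq_of_lt h1] at hh
    have : β < h + 1 := by omega
    simp [this]
  · have h2 : β % 2 ^ w = β - 2 ^ w := by
      rw [Nat.mod_eq_sub_mod (by omega), Nat.mod_eq_of_lt (by omega)]
    have h3 : β - 2 ^ w < h + 1 := by omega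
    have h4 : β ≥ 2 ^ w := by omega
    simp [h3, h4]

theorem testBit_Hi (w h β : ℕ) (hβ : β < 2 ^ (w + 1)) (hw : h + 1 ≤ 2 ^ w)
    (ht : (Hi w h).testBit β = false) : β % 2 ^ w + (h + 1) < 2 ^ w := by
  unfold Hi at ht
  rw [Nat.testBit_or, Bool.or_eq_false_iff, Nat.testBit_shiftLeft, Nat.testBit_shiftLeft,
    Nat.testBit_shiftLeft, Nat.testBit_two_pow_sub_one, Nat.testBit_two_pow_sub_one] at ht
  obtain ⟨t1, t2⟩ := ht
  have hp : 2 ^ (w + 1) = 2 ^ w + 2 ^ w := by rw [pow_succ]; ring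
  by_contra hcon
  by_cases h1 : β < 2 ^ w
  · rw [Nat.mod_eq_of_lt h1] at hcon
    have a1 : β ≥ 2 ^ w - h - 1 := by omega
    have a2 : β - (2 ^ w - h - 1) < h + 1 := by omega
    simp [a1, a2] at t1
  · have h2 : β % 2 ^ w = β - 2 ^ w := by
      rw [Nat.mod_eq_sub_mod (by omega), Nat.mod_eq_of_lt (by omega)]
    rw [h2] at hcon
    have a0 : β ≥ 2 ^ w := by omega
    have a1 : β - 2 ^ w ≥ 2 ^ w - h - 1 := by omega
    have a2 : β - 2 ^ w - (2 ^ w - h - 1) < h + 1 := by omega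
    simp [a0, a1, a2] at t2

theorem testBit_stepS (S nh nh1 h β : ℕ) (hS : S.testBit β = true) :
    (nh.testBit β = false → (stepS S nh nh1 h).testBit (β + h) = true) ∧
    (nh1.testBit β = false → (stepS S nh nh1 h).testBit (β + (h + 1)) = true) := by
  unfold stepS
  constructor
  · intro h1
    rw [Nat.testBit_or, Nat.testBit_shiftLeft, Nat.add_sub_cancel, Nat.testBit_xor,
      Nat.testBit_and, hS, h1]
    simp
  · intro h1
    rw [Nat.testBit_or, Nat.testBit_shiftLeft, Nat.testBit_shiftLeft, Nat.add_sub_cancel,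
      Nat.testBit_xor, Nat.testBit_and, Nat.testBit_xor, Nat.testBit_and, hS, h1]
    simp

theorem loop_sound (w N δ h d : ℕ) (hwN : w ≤ N) (hδ : d % 2 ^ (w + 1) = δ)
    (hw : h + 1 ≤ 2 ^ w) (fuel : ℕ) : ∀ (S : ℕ) (b : ℕ → ℕ),
    (∀ t ≤ fuel, Good d (b t)) →
    (∀ t < fuel, b (t + 1) = b t + h ∨ b (t + 1) = b t + (h + 1)) →
    S.testBit (b 0 % 2 ^ (w + 1)) = true →
    loop (notok w N h δ) (notok w N (h + 1) δ) h (Hi w h) fuel S = true := by
  induction fuel with
  | zero =>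
    intro S b _ _ hS
    rw [loop]
    rw [bne_iff_ne]
    rintro rfl
    simp at hS
  | succ k ih =>
    intro S b hg hst hS
    rw [loop]
    split_ifs with hif
    · rfl
    · have hlt : b 0 % 2 ^ (w + 1) < 2 ^ (w + 1) := Nat.mod_lt _ (by positivity)
      have hzero : S &&& Hi w h = 0 := by
        by_contra hne
        exact hif (by rw [bne_iff_ne]; exact hne)
      have hHi : (Hi w h).testBit (b 0 % 2 ^ (w + 1)) = false := by
        have := congrArg (fun x => x.testBit (b 0 % 2 ^ (w + 1))) hzero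
        simp only [Nat.testBit_and, Nat.zero_testBit, hS, Bool.true_and] at this
        exact this
      have hin := testBit_Hi w h _ hlt hw hHi
      have hmm : b 0 % 2 ^ (w + 1) % 2 ^ w = b 0 % 2 ^ w :=
        Nat.mod_mod_of_dvd _ (pow_dvd_pow 2 (by omega))
      rw [hmm] at hin
      -- next sample stays in the window
      have hnext : ∀ e, e ≤ h + 1 → (b 0 + e) % 2 ^ (w + 1) = b 0 % 2 ^ (w + 1) + e := by
        intro e he
        have h1 : b 0 % 2 ^ (w + 1) + e < 2 ^ (w + 1) := by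
          have hp : 2 ^ (w + 1) = 2 ^ w * 2 := by rw [pow_succ]
          have h2 := Nat.div_add_mod (b 0 % 2 ^ (w + 1)) (2 ^ w)
          rw [hmm] at h2
          have h3 : b 0 % 2 ^ (w + 1) / 2 ^ w < 2 := by
            rw [Nat.div_lt_iff_lt_mul (by positivity)]; omega
          have h4 : 2 ^ w * (b 0 % 2 ^ (w + 1) / 2 ^ w) ≤ 2 ^ w * 1 :=
            Nat.mul_le_mul_left _ (by omega)
          omega
        rw [Nat.add_mod, Nat.mod_eq_of_lt (a := e) (by omega), Nat.mod_eq_of_lt h1]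
      apply ih _ (fun t => b (t + 1)) (fun t ht => hg _ (by omega)) (fun t ht => hst _ (by omega))
      have hsound := testBit_stepS S (notok w N h δ) (notok w N (h + 1) δ) h _ hS
      rcases hst 0 (by omega) with h1 | h1
      · have hno := notok_sound w N h δ d (b 0) hwN hδ (hg 0 (by omega))
          (by have := hg 1 (by omega); rw [zero_add] at h1; rwa [h1] at this)
        have := hsound.1 hno
        rw [zero_add] at h1 ⊢
        rw [h1, hnext h (by omega)]
        exact this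
      · have hno := notok_sound w N (h + 1) δ d (b 0) hwN hδ (hg 0 (by omega))
          (by have := hg 1 (by omega); rw [zero_add] at h1; rwa [h1] at this)
        have := hsound.2 hno
        rw [zero_add] at h1 ⊢
        rw [h1, hnext (h + 1) (by omega)]
        exact this

/-- if good samples traverse a window then `reach` is true -/
theorem reach_of_samples (w N δ h d fuel : ℕ) (hwN : w ≤ N) (hδ : d % 2 ^ (w + 1) = δ)
    (hw : h + 1 ≤ 2 ^ w) (b : ℕ → ℕ) (hg : ∀ t ≤ fuel, Good d (b t))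
    (hst : ∀ t < fuel, b (t + 1) = b t + h ∨ b (t + 1) = b t + (h + 1))
    (hb0 : b 0 % 2 ^ w ≤ h) : reach w N δ h fuel = true := by
  apply loop_sound w N δ h d hwN hδ hw fuel _ b hg hst
  apply testBit_S0
  · exact Nat.mod_lt _ (by positivity)
  · rw [Nat.mod_mod_of_dvd _ (pow_dvd_pow 2 (by omega))]; exact hb0

end Pool.Agent.RS
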