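import Pool.Agent.RS.Structure
import Pool.Agent.RS.Checks

/-!
# Long monochromatic progressions only exist for `d = 2^K ± 1`
-/

namespace Pool.Agent.RS

/-- from the steps being all 32 to the closeness of `d` to `2^K` -/
theorem close_of_steps (n d s j0 M : ℕ) (hstep : ∀ t < M,
    (n + (j0 + t + 1) * d) / 2 ^ s = (n + (j0 + t) * d) / 2 ^ s + 32) :
    M * d < M * (32 * 2 ^ s) + 2 ^ s ∧ M * (32 * 2 ^ s) < M * d + 2 ^ s := by
  have hpos : 0 < 2 ^ s := by positivity
  have h1 : ∀ t ≤ M, (n + (j0 + t) * d) / 2 ^ s = (n + j0 * d) / 2 ^ s + 32 * t := by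
    intro t
    induction t with
    | zero => intro _; simp
    | succ t ih =>
      intro ht
      have := hstep t (by omega)
      rw [show j0 + (t + 1) = j0 + t + 1 by ring, this, ih (by omega)]; ring
  have h2 := h1 M le_rfl
  have a1 := Nat.div_add_mod (n + j0 * d) (2 ^ s)
  have a2 := Nat.mod_lt (n + j0 * d) hpos
  have b1 := Nat.div_add_mod (n + (j0 + M) * d) (2 ^ s)
  have b2 := Nat.mod_lt (n + (j0 + M) * d) hpos
  rw [h2, mul_add] at b1
  have e : n + (j0 + M) * d = n + j0 * d + M * d := by ring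
  have e2 : 2 ^ s * (32 * M) = M * (32 * 2 ^ s) := by ring
  rw [e2] at b1
  rw [e] at b1 b2
  constructor <;> omega

theorem finish (n d K s J : ℕ) (hs5 : 5 ≤ s) (hK : K = s + 5) (hodd : d % 2 = 1)
    (h : ℕ) (hh : h = 31 ∨ h = 32) (hdh : d / 2 ^ s = h) (hm : d % 256 = 1 ∨ d % 256 = 255)
    (hJ : 2 ^ (s - 1) + 4 ≤ J) (hg : ∀ j < J, Good d ((n + j * d) / 2 ^ s)) :
    d = 2 ^ K + 1 ∨ d + 1 = 2 ^ K := by
  have hpos : 0 < 2 ^ s := by positivity
  have hK2 : 2 ^ K = 32 * 2 ^ s := by rw [hK, pow_add]; ring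
  have hdm := Nat.div_add_mod d (2 ^ s)
  have hml := Nat.mod_lt d hpos
  rw [hdh] at hdm
  by_cases hs7 : s ≤ 7
  · interval_cases s <;> rcases hh with rfl | rfl <;> norm_num at hK2 hdm hml <;> omega
  · have hs8 : 8 ≤ s := by omega
    have h7 : 2 ^ 7 ≤ 2 ^ (s - 1) := Nat.pow_le_pow_right (by norm_num) (by omega)
    have hss : 2 ^ s = 2 * 2 ^ (s - 1) := by
      obtain ⟨u, rfl⟩ : ∃ u, s = u + 1 := ⟨s - 1, by omega⟩
      rw [pow_succ]; simp; ring
    norm_num at h7
    set b : ℕ → ℕ := fun j => (n + j * d) / 2 ^ s with hb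
    have hst : ∀ j, b (j + 1) = b j + h ∨ b (j + 1) = b j + (h + 1) := by
      intro j
      have := step_floor n d s j
      rw [hdh] at this
      exact this
    -- mod 512
    have h512 : d % 512 = 1 ∨ d % 512 = 511 := by
      have htr := traverse 9 14 d h J 17 (by norm_num) (by omega) (by norm_num; omega) b hg
        (fun j _ => hst j) (by
          have : (2 ^ 9 - 1) / h ≤ 16 := by rcases hh with rfl | rfl <;> norm_num
          omega)
      have := fc9 (d % 2 ^ (9 + 1)) h (by
          have := Nat.mod_lt d (show 0 < 2 ^ (9 + 1) by positivity)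
          norm_num at this ⊢; exact this) (by norm_num; omega) hh htr
      norm_num at this; omega
    have hd2 : 2 ≤ d := by
      rcases hh with hh | hh <;> rw [hh] at hdm <;> omega
    have hstep32 : ∀ j, 5 ≤ j → j + 6 < J - 1 → b (j + 2) = b (j + 1) + 32 := by
      rcases h512 with h512 | h512
      · -- eps = 1
        obtain ⟨m, D, hD, hmD⟩ := Nat.exists_eq_two_pow_mul_odd (n := d - 1) (by omega)
        have hd : d = 2 ^ m * D + 1 := by omega
        have hm9 : 9 ≤ m := by
          by_contra hcon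
          have hm8 : m ≤ 8 := by omega
          obtain ⟨x, hx⟩ := hD
          have : (d - 1) % 512 = 0 := by omega
          rw [hmD, hx] at this
          interval_cases m <;> norm_num at this <;> omega
        have hH : 2 ^ 8 ≤ 2 ^ (m - 1) := Nat.pow_le_pow_right (by norm_num) (by omega)
        have hH16 : 2 ^ (m - 1) % 16 = 0 := by
          obtain ⟨y, hy⟩ : ∃ y, m - 1 = 4 + y := ⟨m - 5, by omega⟩
          rw [hy, pow_add]; norm_num [Nat.mul_mod_right]
        norm_num at hH
        have := steps32 (2 ^ (m - 1)) (J - 1) h hH hH16 hh (fun j => b (j + 1))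
          (fun j _ => hst (j + 1)) (by
            intro j j' h1 h1' hj hj' hc hc' hblk
            exact transfer_pos m D d _ _ (by omega) hd (hg _ (by omega)) (hg _ (by omega)) hc hc'
              hblk)
        intro j h5 h6
        exact this j h5 h6
      · obtain ⟨m, D, hD, hmD⟩ := Nat.exists_eq_two_pow_mul_odd (n := d + 1) (by omega)
        have hm9 : 9 ≤ m := by
          by_contra hcon
          have hm8 : m ≤ 8 := by omega
          obtain ⟨x, hx⟩ := hD
          have : (d + 1) % 512 = 0 := by omega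
          rw [hmD, hx] at this
          interval_cases m <;> norm_num at this <;> omega
        have hH : 2 ^ 8 ≤ 2 ^ (m - 1) := Nat.pow_le_pow_right (by norm_num) (by omega)
        have hH16 : 2 ^ (m - 1) % 16 = 0 := by
          obtain ⟨y, hy⟩ : ∃ y, m - 1 = 4 + y := ⟨m - 5, by omega⟩
          rw [hy, pow_add]; norm_num [Nat.mul_mod_right]
        norm_num at hH
        have hb15 : ∀ j, 15 ≤ b (j + 1) := by
          intro j
          rcases hst j with h1 | h1 <;> rcases hh with rfl | rfl <;> omega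
        have := steps32 (2 ^ (m - 1)) (J - 1) h hH hH16 hh (fun j => b (j + 1) - 15)
          (fun j _ => by
            have h1 := hst (j + 1)
            have h2 := hb15 j
            have h3 := hb15 (j + 1)
            show b (j + 1 + 1) - 15 = b (j + 1) - 15 + h ∨ b (j + 1 + 1) - 15 = b (j + 1) - 15 + (h + 1)
            omega) (by
            intro j j' h1 h1' hj hj' hc hc' hblk
            have g1 : Good d (b (j + 1) - 15 + 15) := by
              rw [Nat.sub_add_cancel (hb15 j)]; exact hg _ (by omega)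
            have g2 : Good d (b (j' + 1) - 15 + 15) := by
              rw [Nat.sub_add_cancel (hb15 j')]; exact hg _ (by omega)
            exact transfer_neg m D d _ _ (by omega) hD.pos hmD g1 g2 hc hc' hblk)
        intro j h5 h6
        have h7 := this j h5 h6
        have h8 := hb15 j
        have h9 := hb15 (j + 1)
        have h7' : b (j + 1 + 1) - 15 = b (j + 1) - 15 + 32 := h7
        have : b (j + 1 + 1) = b (j + 1) + 32 := by omega
        exact this
    obtain ⟨c1, c2⟩ := close_of_steps n d s 6 (J - 12) (by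
      intro t ht
      have := hstep32 (5 + t) (by omega) (by omega)
      have e1 : 5 + t + 2 = 6 + t + 1 := by ring
      have e2 : 5 + t + 1 = 6 + t := by ring
      rw [e1, e2] at this
      exact this)
    have hM : 2 ^ (s - 1) - 8 ≤ J - 12 := by omega
    have h3M : 2 ^ s ≤ 3 * (J - 12) := by omega
    rw [← hK2] at c1 c2
    -- |d - 2^K| < 3
    have u1 : d < 2 ^ K + 3 := by
      by_contra hcon
      push Not at hcon
      have : (J - 12) * (2 ^ K + 3) ≤ (J - 12) * d := Nat.mul_le_mul_left _ hcon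
      rw [mul_add] at this
      omega
    have u2 : 2 ^ K < d + 3 := by
      by_contra hcon
      push Not at hcon
      have : (J - 12) * (d + 3) ≤ (J - 12) * 2 ^ K := Nat.mul_le_mul_left _ hcon
      rw [mul_add] at this
      omega
    omega

theorem nonspecial (d n l : ℕ) (hodd : d % 2 = 1) (hd : 1025 ≤ d) (hm : Mono n d l)
    (hl : d + 7 ≤ 2 * l) : ∃ K, 10 ≤ K ∧ (d = 2 ^ K + 1 ∨ d + 1 = 2 ^ K) := by
  obtain ⟨k, hk1, hk2⟩ : ∃ k, 2 ^ k ≤ d ∧ d < 2 ^ (k + 1) :=
    ⟨Nat.log2 d, Nat.log2_self_le (by omega), Nat.lt_log2_self⟩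
  have hk10 : 10 ≤ k := by
    by_contra hcon
    have : 2 ^ (k + 1) ≤ 2 ^ 10 := Nat.pow_le_pow_right (by norm_num) (by omega)
    norm_num at this; omega
  obtain ⟨s0, rfl⟩ : ∃ s0, k = s0 + 5 := ⟨k - 5, by omega⟩
  have hs5 : 5 ≤ s0 := by omega
  have e1 : 2 ^ (s0 + 5) = 32 * 2 ^ s0 := by rw [pow_add]; ring
  have e2 : 2 ^ (s0 + 5 + 1) = 64 * 2 ^ s0 := by rw [pow_add, pow_add]; ring
  have h32 : 2 ^ 5 ≤ 2 ^ s0 := Nat.pow_le_pow_right (by norm_num) hs5
  have hss : 2 ^ s0 = 2 * 2 ^ (s0 - 1) := by
    obtain ⟨u, rfl⟩ : ∃ u, s0 = u + 1 := ⟨s0 - 1, by omega⟩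
    rw [pow_succ]; simp; ring
  norm_num at h32
  have hpos : 0 < 2 ^ s0 := by positivity
  rw [e1] at hk1
  rw [e2] at hk2
  by_cases hc : d < 61 * 2 ^ s0
  · -- case I
    have hdm := Nat.div_add_mod d (2 ^ s0)
    have hml := Nat.mod_lt d hpos
    set h := d / 2 ^ s0 with hh
    have hh32 : 32 ≤ h := by rw [hh, Nat.le_div_iff_mul_le hpos]; exact hk1
    have hh60 : h ≤ 60 := by
      have : h < 61 := by rw [hh, Nat.div_lt_iff_lt_mul hpos]; exact hc
      omega
    have hg : ∀ j < 2 ^ s0, Good d ((n + j * d) / 2 ^ s0) := by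
      intro j hj
      apply sample_good n d l s0 j (by omega) hm
      omega
    have hst : ∀ j, j + 1 < 2 ^ s0 → (n + (j + 1) * d) / 2 ^ s0 = (n + j * d) / 2 ^ s0 + h ∨
        (n + (j + 1) * d) / 2 ^ s0 = (n + j * d) / 2 ^ s0 + (h + 1) := by
      intro j _
      exact step_floor n d s0 j
    have htr := traverse 8 13 d h (2 ^ s0) 8 (by norm_num) (by omega) (by norm_num; omega)
      (fun j => (n + j * d) / 2 ^ s0) hg hst (by
        have : (2 ^ 8 - 1) / h ≤ (2 ^ 8 - 1) / 30 := Nat.div_le_div_left (by omega) (by norm_num)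
        norm_num at this ⊢
        omega)
    have := fc8 (d % 2 ^ (8 + 1)) h (by
        have := Nat.mod_lt d (show 0 < 2 ^ (8 + 1) by positivity)
        norm_num at this ⊢; exact this) (by norm_num; omega) (by omega) hh60 htr
    rcases this with ⟨hmm, h3⟩ | ⟨hmm, h3⟩
    · have h32' : h = 32 := by omega
      have hmod : d % 256 = 1 ∨ d % 256 = 255 := by norm_num at hmm; omega
      have := finish n d (s0 + 5) s0 (2 ^ s0) hs5 rfl hodd h (Or.inr h32') hh.symm hmod
        (by omega) hg
      exact ⟨s0 + 5, hk10, this⟩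
    · exfalso
      have hmod : d % 2 ^ (9 + 1) % 256 = 39 ∨ d % 2 ^ (9 + 1) % 256 = 217 := by
        norm_num at hmm ⊢; omega
      have htr9 := traverse 9 14 d h (2 ^ s0) 17 (by norm_num) (by omega) (by norm_num; omega)
        (fun j => (n + j * d) / 2 ^ s0) hg hst (by
          have : (2 ^ 9 - 1) / h ≤ (2 ^ 9 - 1) / 38 := Nat.div_le_div_left (by omega) (by norm_num)
          norm_num at this ⊢
          omega)
      exact fc9' (d % 2 ^ (9 + 1)) h (by
        have := Nat.mod_lt d (show 0 < 2 ^ (9 + 1) by positivity)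
        norm_num at this ⊢; exact this) hmod h3 htr9
  · -- case II
    push Not at hc
    have hs1 : 2 ^ (s0 + 1) = 2 * 2 ^ s0 := by rw [pow_succ]; ring
    have hpos1 : 0 < 2 ^ (s0 + 1) := by positivity
    have hdm := Nat.div_add_mod d (2 ^ (s0 + 1))
    have hml := Nat.mod_lt d hpos1
    set h := d / 2 ^ (s0 + 1) with hh
    have hh30 : 30 ≤ h := by rw [hh, Nat.le_div_iff_mul_le hpos1]; omega
    have hh31 : h ≤ 31 := by
      have : h < 32 := by rw [hh, Nat.div_lt_iff_lt_mul hpos1]; omega
      omega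
    set J := l - 15 * 2 ^ (s0 + 1) with hJ
    have hg : ∀ j < J, Good d ((n + j * d) / 2 ^ (s0 + 1)) := by
      intro j hj
      apply sample_good n d l (s0 + 1) j (by omega) hm
      omega
    have hst : ∀ j, j + 1 < J → (n + (j + 1) * d) / 2 ^ (s0 + 1) = (n + j * d) / 2 ^ (s0 + 1) + h ∨
        (n + (j + 1) * d) / 2 ^ (s0 + 1) = (n + j * d) / 2 ^ (s0 + 1) + (h + 1) := by
      intro j _
      exact step_floor n d (s0 + 1) j
    have htr := traverse 8 13 d h J 8 (by norm_num) (by omega) (by norm_num; omega)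
      (fun j => (n + j * d) / 2 ^ (s0 + 1)) hg hst (by
        have : (2 ^ 8 - 1) / h ≤ (2 ^ 8 - 1) / 30 := Nat.div_le_div_left (by omega) (by norm_num)
        norm_num at this ⊢
        omega)
    have := fc8 (d % 2 ^ (8 + 1)) h (by
        have := Nat.mod_lt d (show 0 < 2 ^ (8 + 1) by positivity)
        norm_num at this ⊢; exact this) (by norm_num; omega) (by omega) (by omega) htr
    rcases this with ⟨hmm, h3⟩ | ⟨hmm, h3⟩
    · have h31' : h = 31 := by omega
      have hmod : d % 256 = 1 ∨ d % 256 = 255 := by norm_num at hmm; omega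
      have := finish n d (s0 + 1 + 5) (s0 + 1) J (by omega) rfl hodd h (Or.inl h31') hh.symm hmod
        (by
          rw [Nat.add_sub_cancel]
          rw [h31'] at hdm
          omega) hg
      exact ⟨s0 + 1 + 5, by omega, this⟩
    · omega

end Pool.Agent.RS
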