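import Pool.Agent.RS.Mask

/-!
# The differences `2^K + 1` and `2^K - 1`
-/

namespace Pool.Agent.RS

theorem xor_cases (x o i : ℕ) (hpar : x % 2 = o % 2) :
    xor (r (x + i)) (r (o + i)) =
      xor (xor (r (x / 2 + (o % 2 + i) / 2)) (r (o / 2 + (o % 2 + i) / 2)))
        (decide ((o % 2 + i) % 2 = 1) && xor ((x / 2).testBit 0) ((o / 2).testBit 0)) := by
  have hx : x + i = 2 * (x / 2 + (o % 2 + i) / 2) + (o % 2 + i) % 2 := by omega
  have ho : o + i = 2 * (o / 2 + (o % 2 + i) / 2) + (o % 2 + i) % 2 := by omega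
  set i' := (o % 2 + i) / 2
  have hbit : xor ((x / 2 + i').testBit 0) ((o / 2 + i').testBit 0) =
      xor ((x / 2).testBit 0) ((o / 2).testBit 0) := by
    rw [Nat.testBit_zero, Nat.testBit_zero, Nat.testBit_zero, Nat.testBit_zero]
    rcases Nat.mod_two_eq_zero_or_one (x / 2) with h1 | h1 <;>
    rcases Nat.mod_two_eq_zero_or_one (o / 2) with h2 | h2 <;>
    rcases Nat.mod_two_eq_zero_or_one i' with h3 | h3 <;>
    simp [Nat.add_mod, h1, h2, h3]
  rcases Nat.mod_two_eq_zero_or_one (o % 2 + i) with h | h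
  · rw [hx, ho, h, Nat.add_zero, Nat.add_zero, r_two_mul, r_two_mul]
    simp
  · rw [hx, ho, h, r_two_mul_add_one, r_two_mul_add_one, ← hbit]
    generalize r (x / 2 + i') = a1
    generalize r (o / 2 + i') = a2
    generalize (x / 2 + i').testBit 0 = a3
    generalize (o / 2 + i').testBit 0 = a4
    revert a1 a2 a3 a4; decide

theorem testBit_zero_eq_iff (a b : ℕ) : xor (a.testBit 0) (b.testBit 0) = false ↔ a % 2 = b % 2 := by
  rw [Nat.testBit_zero, Nat.testBit_zero]
  rcases Nat.mod_two_eq_zero_or_one a with h1 | h1 <;>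
  rcases Nat.mod_two_eq_zero_or_one b with h2 | h2 <;> simp [h1, h2]

theorem claimC (a : ℕ) (ha : 1 ≤ a) : ∀ (x o m : ℕ) (c : Bool), o + m ≤ 2 ^ a →
    2 ^ (a - 1) + 1 ≤ m → x % 2 = o % 2 →
    (∀ i < m, xor (r (x + i)) (r (o + i)) = c) → x % 2 ^ (a + 1) = o % 2 ^ (a + 1) := by
  induction a, ha using Nat.le_induction with
  | base =>
    intro x o m c h1 h2 hpar h
    norm_num at h1 h2 ⊢
    have ho : o = 0 := by omega
    subst ho
    have v0 := h 0 (by omega)
    have v1 := h 1 (by omega)
    rw [xor_cases x 0 0 hpar] at v0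
    rw [xor_cases x 0 1 hpar] at v1
    norm_num at v0 v1
    rw [← v0] at v1
    rw [r_zero] at v1
    have : x / 2 % 2 = 0 := by
      rcases Nat.mod_two_eq_zero_or_one (x / 2) with h2 | h2
      · exact h2
      · rw [h2] at v1
        exfalso
        revert v1
        cases r (x / 2) <;> simp
    omega
  | succ a ha ih =>
    intro x o m c h1 h2 hpar h
    have hpa : 2 ^ (a + 1) = 2 * 2 ^ a := by rw [pow_succ]; ring
    have hpa' : 2 ^ a = 2 * 2 ^ (a - 1) := by
      obtain ⟨u, rfl⟩ : ∃ u, a = u + 1 := ⟨a - 1, by omega⟩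
      rw [pow_succ]; simp; ring
    have hpos : 1 ≤ 2 ^ (a - 1) := Nat.one_le_two_pow
    rw [Nat.add_sub_cancel] at h2
    have v0 := h (o % 2) (by omega)
    have v1 := h (o % 2 + 1) (by omega)
    rw [xor_cases x o _ hpar] at v0 v1
    have e0 : (o % 2 + o % 2) % 2 = 0 := by omega
    have e1 : (o % 2 + (o % 2 + 1)) % 2 = 1 := by omega
    have e2 : (o % 2 + (o % 2 + 1)) / 2 = (o % 2 + o % 2) / 2 := by omega
    rw [e0] at v0
    rw [e1, e2] at v1
    have hb : xor ((x / 2).testBit 0) ((o / 2).testBit 0) = false := by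
      clear h
      revert v0 v1
      generalize r (x / 2 + (o % 2 + o % 2) / 2) = a1
      generalize r (o / 2 + (o % 2 + o % 2) / 2) = a2
      generalize (xor ((x / 2).testBit 0) ((o / 2).testBit 0)) = a3
      revert a1 a2 a3 c; decide
    have hpar' := (testBit_zero_eq_iff _ _).mp hb
    have := ih (x / 2) (o / 2) ((o % 2 + m - 1) / 2 + 1) c (by omega) (by omega) hpar' (by
      intro i' hi'
      have hv := h (2 * i' - o % 2) (by omega)
      rw [xor_cases x o _ hpar, hb, Bool.and_false, Bool.xor_false] at hv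
      have e3 : (o % 2 + (2 * i' - o % 2)) / 2 = i' := by omega
      rw [e3] at hv
      exact hv)
    have h2 : 2 ^ (a + 1 + 1) = 2 * 2 ^ (a + 1) := by rw [pow_succ]; ring
    rw [h2, Nat.mod_mul, Nat.mod_mul, this, hpar]

theorem alt_bad (x o : ℕ) (c : Bool)
    (h : ∀ i < 18, xor (r (x + i)) (r (o + i)) = xor c (decide (i % 2 = 1))) : False := by
  by_cases hpar : x % 2 = o % 2
  · have v0 := h (o % 2) (by omega)
    have v1 := h (o % 2 + 1) (by omega)
    rw [xor_cases x o _ hpar] at v0 v1
    have e0 : (o % 2 + o % 2) % 2 = 0 := by omega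
    have e1 : (o % 2 + (o % 2 + 1)) % 2 = 1 := by omega
    have e2 : (o % 2 + (o % 2 + 1)) / 2 = (o % 2 + o % 2) / 2 := by omega
    rw [e0] at v0
    rw [e1, e2] at v1
    have e3 : decide ((o % 2 + 1) % 2 = 1) = !decide (o % 2 % 2 = 1) := by
      rcases Nat.mod_two_eq_zero_or_one o with h1 | h1 <;> simp [h1]
    rw [e3] at v1
    have hb : xor ((x / 2).testBit 0) ((o / 2).testBit 0) = true := by
      clear h
      revert v0 v1
      generalize r (x / 2 + (o % 2 + o % 2) / 2) = a1
      generalize r (o / 2 + (o % 2 + o % 2) / 2) = a2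
      generalize (xor ((x / 2).testBit 0) ((o / 2).testBit 0)) = a3
      generalize decide (o % 2 % 2 = 1) = a4
      revert a1 a2 a3 a4 c; decide
    have hpar' : x / 2 % 2 ≠ o / 2 % 2 := by
      intro hcon
      rw [← testBit_zero_eq_iff, hb] at hcon
      exact absurd hcon (by decide)
    have hconst : ∀ i' < 8, xor (r (x / 2 + o % 2 + i')) (r (o / 2 + o % 2 + i')) =
        xor c (decide (o % 2 = 1)) := by
      intro i' hi'
      have hv := h (2 * (o % 2 + i') - o % 2) (by omega)
      rw [xor_cases x o _ hpar] at hv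
      have e4 : (o % 2 + (2 * (o % 2 + i') - o % 2)) / 2 = o % 2 + i' := by omega
      have e5 : (o % 2 + (2 * (o % 2 + i') - o % 2)) % 2 = 0 := by omega
      have e6 : (2 * (o % 2 + i') - o % 2) % 2 = o % 2 := by omega
      rw [e4, e5, e6] at hv
      simp only [show decide ((0:ℕ) = 1) = false by decide, Bool.false_and, Bool.xor_false] at hv
      rw [add_assoc, add_assoc]; exact hv
    apply odd_bad (x / 2 + o % 2) (o / 2 + o % 2) (by omega)
    intro i hi
    rw [hconst i hi, hconst (i % 2) (by omega)]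
  · apply odd_bad x o hpar
    intro i hi
    rw [h i (by omega), h (i % 2) (by omega)]
    congr 2
    rw [Nat.mod_mod]

theorem r_one : r 1 = false := by simpa [r_zero] using r_two_mul_add_one 0

theorem compl (K : ℕ) (hK : 1 ≤ K) : ∀ y < 2 ^ K,
    r (2 ^ K - 1 - y) = xor (xor (xor (r y) (y.testBit 0)) (y.testBit (K - 1)))
      (decide ((K - 1) % 2 = 1)) := by
  induction K, hK using Nat.le_induction with
  | base =>
    intro y hy
    norm_num at hy ⊢
    interval_cases y <;> simp [r_zero, r_one]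
  | succ K hK ih =>
    intro y hy
    have hp : 2 ^ (K + 1) = 2 * 2 ^ K := by rw [pow_succ]; ring
    have hy' : y / 2 < 2 ^ K := by omega
    have hih := ih (y / 2) hy'
    have hbitc : (2 ^ K - 1 - y / 2).testBit 0 = !(y / 2).testBit 0 := by
      rw [Nat.testBit_zero, Nat.testBit_zero]
      have he : 2 ^ K % 2 = 0 := by
        obtain ⟨u, rfl⟩ : ∃ u, K = u + 1 := ⟨K - 1, by omega⟩
        rw [pow_succ]; simp
      rcases Nat.mod_two_eq_zero_or_one (y / 2) with h1 | h1
      · have : (2 ^ K - 1 - y / 2) % 2 = 1 := by omega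
        simp [h1, this]
      · have : (2 ^ K - 1 - y / 2) % 2 = 0 := by omega
        simp [h1, this]
    have hk : decide ((K + 1 - 1) % 2 = 1) = !decide ((K - 1) % 2 = 1) := by
      rcases Nat.mod_two_eq_zero_or_one (K - 1) with h1 | h1
      · have : (K + 1 - 1) % 2 = 1 := by omega
        rw [h1, this]; rfl
      · have : (K + 1 - 1) % 2 = 0 := by omega
        rw [h1, this]; rfl
    have htop : y.testBit (K + 1 - 1) = (y / 2).testBit (K - 1) := by
      obtain ⟨u, rfl⟩ : ∃ u, K = u + 1 := ⟨K - 1, by omega⟩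
      simp only [Nat.add_sub_cancel]
      rw [Nat.testBit_succ]
    rw [hk, htop]
    rcases Nat.mod_two_eq_zero_or_one y with h0 | h0
    · have e1 : 2 ^ (K + 1) - 1 - y = 2 * (2 ^ K - 1 - y / 2) + 1 := by omega
      have e2 : r y = r (y / 2) := by
        conv_lhs => rw [show y = 2 * (y / 2) by omega]
        rw [r_two_mul]
      have e3 : y.testBit 0 = false := by rw [Nat.testBit_zero]; simp [h0]
      rw [e1, r_two_mul_add_one, hih, hbitc, e2, e3]
      generalize r (y / 2) = a1
      generalize (y / 2).testBit 0 = a2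
      generalize (y / 2).testBit (K - 1) = a3
      generalize decide ((K - 1) % 2 = 1) = a4
      revert a1 a2 a3 a4; decide
    · have e1 : 2 ^ (K + 1) - 1 - y = 2 * (2 ^ K - 1 - y / 2) := by omega
      have e2 : r y = xor (r (y / 2)) ((y / 2).testBit 0) := by
        conv_lhs => rw [show y = 2 * (y / 2) + 1 by omega]
        rw [r_two_mul_add_one]
      have e3 : y.testBit 0 = true := by rw [Nat.testBit_zero]; simp [h0]
      rw [e1, r_two_mul, hih, e2, e3]
      generalize r (y / 2) = a1
      generalize (y / 2).testBit 0 = a2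
      generalize (y / 2).testBit (K - 1) = a3
      generalize decide ((K - 1) % 2 = 1) = a4
      revert a1 a2 a3 a4; decide

theorem testBit_top_false (K y : ℕ) (hy : y < 2 ^ K) : y.testBit K = false :=
  Nat.testBit_lt_two_pow hy

theorem testBit_top_true (K y : ℕ) (hy : 2 ^ K ≤ y) (hy2 : y < 2 ^ (K + 1)) :
    y.testBit K = true := by
  rw [Nat.testBit_eq_decide_div_mod_eq]
  have : y / 2 ^ K = 1 := by
    apply Nat.div_eq_of_lt_le
    · omega
    · rw [pow_succ] at hy2; omega
  simp [this]

/-- eliminating the second half block -/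
theorem alt_piece (K x o : ℕ) (hK : 10 ≤ K) (c : Bool) (ho : o + 2 ^ (K - 2) < 2 ^ (K - 1))
    (h : ∀ i ≤ 2 ^ (K - 2), xor (r (x + i)) (r (o + i)) =
      xor (xor c ((o + i).testBit (K - 2))) (decide (i % 2 = 1))) : False := by
  have hq : 2 ^ 8 ≤ 2 ^ (K - 2) := Nat.pow_le_pow_right (by norm_num) (by omega)
  norm_num at hq
  have hL : 2 ^ (K - 1) = 2 * 2 ^ (K - 2) := by
    rw [show K - 1 = (K - 2) + 1 by omega, pow_succ]; ring
  by_cases h1 : o + 17 < 2 ^ (K - 2)
  · apply alt_bad x o c
    intro i hi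
    rw [h i (by omega), testBit_top_false (K - 2) (o + i) (by omega)]
    simp
  · -- start at `i1`
    obtain ⟨i1, hi1, hi1', hev⟩ : ∃ i1, i1 ≤ 18 ∧ 2 ^ (K - 2) ≤ o + i1 ∧ i1 % 2 = 0 := by
      by_cases h2 : 2 ^ (K - 2) ≤ o
      · exact ⟨0, by omega, by omega, rfl⟩
      · exact ⟨18, by omega, by omega, rfl⟩
    apply alt_bad (x + i1) (o + i1) (!c)
    intro i hi
    have := h (i1 + i) (by omega)
    rw [testBit_top_true (K - 2) (o + (i1 + i)) (by omega) (by
      rw [show K - 2 + 1 = K - 1 by omega]; omega)] at this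
    rw [add_assoc, add_assoc, this]
    have e : decide ((i1 + i) % 2 = 1) = decide (i % 2 = 1) := by
      congr 1; rw [eq_iff_iff]; omega
    rw [e]
    clear this h
    generalize decide (i % 2 = 1) = a1
    revert a1 c; decide

theorem lp_pos (K x u : ℕ) (hK : 10 ≤ K) (hu : u < 2 ^ K) (c : Bool)
    (ho : u % 2 ^ (K - 1) + 2 ^ (K - 2) < 2 ^ (K - 1))
    (h : ∀ i ≤ 2 ^ (K - 2), r (2 ^ K * x + u + i * (2 ^ K + 1)) = c) :
    u < 2 ^ (K - 1) ∧ x % 2 ^ K = u := by
  have hq : 2 ^ 8 ≤ 2 ^ (K - 2) := Nat.pow_le_pow_right (by norm_num) (by omega)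
  norm_num at hq
  have hL : 2 ^ (K - 1) = 2 * 2 ^ (K - 2) := by
    rw [show K - 1 = (K - 2) + 1 by omega, pow_succ]; ring
  have hKK : 2 ^ K = 2 * 2 ^ (K - 1) := by
    conv_lhs => rw [show K = (K - 1) + 1 by omega, pow_succ]
    ring
  have hdm := Nat.div_add_mod u (2 ^ (K - 1))
  have hq2 : u / 2 ^ (K - 1) < 2 := by
    rw [Nat.div_lt_iff_lt_mul (by positivity)]; omega
  have e : ∀ i, 2 ^ K * x + u + i * (2 ^ K + 1) = 2 ^ K * (x + i) + (u + i) := by
    intro i; ring
  have hq3 : u / 2 ^ (K - 1) = 0 ∨ u / 2 ^ (K - 1) = 1 := by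
    clear hdm; generalize u / 2 ^ (K - 1) = z at hq2; omega
  rcases hq3 with hτ | hτ
  · rw [hτ, mul_zero, zero_add] at hdm
    rw [hdm] at ho
    have hconst : ∀ i < 2 ^ (K - 2) + 1, xor (r (x + i)) (r (u + i)) = c := by
      intro i hi
      have := h i (by omega)
      rw [e, r_zoom K (by omega) _ _ (by omega), testBit_top_false (K - 1) (u + i) (by omega),
        Bool.and_false, Bool.xor_false] at this
      exact this
    refine ⟨by omega, ?_⟩
    have hpar : x % 2 = u % 2 := by
      by_contra hne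
      apply odd_bad x u hne
      intro i hi
      rw [hconst i (by omega), hconst (i % 2) (by omega)]
    have := claimC (K - 1) (by omega) x u (2 ^ (K - 2) + 1) c (by omega)
      (by rw [show K - 1 - 1 = K - 2 by omega]) hpar hconst
    rw [show K - 1 + 1 = K by omega] at this
    rw [this, Nat.mod_eq_of_lt hu]
  · exfalso
    rw [hτ, mul_one] at hdm
    set o := u % 2 ^ (K - 1) with hodef
    apply alt_piece K x o hK (xor c (x.testBit 0)) ho
    intro i hi
    have := h i hi
    rw [e, r_zoom K (by omega) _ _ (by omega), testBit_top_true (K - 1) (u + i) (by omega) (by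
      rw [show K - 1 + 1 = K by omega]; omega), Bool.and_true] at this
    have e2 : u + i = 2 ^ (K - 1) * 1 + (o + i) := by omega
    rw [e2, r_zoom (K - 1) (by omega) 1 (o + i) (by omega), r_one,
      show K - 1 - 1 = K - 2 by omega, show Nat.testBit 1 0 = true by decide] at this
    have e3 : (x + i).testBit 0 = xor (x.testBit 0) (decide (i % 2 = 1)) := by
      rw [Nat.testBit_zero, Nat.testBit_zero]
      rcases Nat.mod_two_eq_zero_or_one x with h1 | h1 <;>
      rcases Nat.mod_two_eq_zero_or_one i with h2 | h2 <;> simp [Nat.add_mod, h1, h2]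
    rw [e3] at this
    clear h
    revert this
    generalize r (x + i) = a1
    generalize r (o + i) = a2
    generalize (o + i).testBit (K - 2) = a3
    generalize x.testBit 0 = a4
    generalize decide (i % 2 = 1) = a5
    revert a1 a2 a3 a4 a5 c; decide

theorem lp_neg (K x v : ℕ) (hK : 10 ≤ K) (hv : v < 2 ^ K) (c : Bool)
    (ho : v % 2 ^ (K - 1) + 2 ^ (K - 2) < 2 ^ (K - 1))
    (h : ∀ i ≤ 2 ^ (K - 2), r (2 ^ K * x + (2 ^ K - 1 - v) + i * (2 ^ K - 1)) = c) :
    v < 2 ^ (K - 1) ∧ x % 2 ^ K = v := by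
  have hq : 2 ^ 8 ≤ 2 ^ (K - 2) := Nat.pow_le_pow_right (by norm_num) (by omega)
  norm_num at hq
  have hL : 2 ^ (K - 1) = 2 * 2 ^ (K - 2) := by
    rw [show K - 1 = (K - 2) + 1 by omega, pow_succ]; ring
  have hKK : 2 ^ K = 2 * 2 ^ (K - 1) := by
    conv_lhs => rw [show K = (K - 1) + 1 by omega, pow_succ]
    ring
  have hdm := Nat.div_add_mod v (2 ^ (K - 1))
  have hq2 : v / 2 ^ (K - 1) < 2 := by
    rw [Nat.div_lt_iff_lt_mul (by positivity)]; omega
  have e : ∀ i, v + i < 2 ^ K → 2 ^ K * x + (2 ^ K - 1 - v) + i * (2 ^ K - 1) =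
      2 ^ K * (x + i) + (2 ^ K - 1 - (v + i)) := by
    intro i hi
    have h1 : i * (2 ^ K - 1) + i = 2 ^ K * i := by
      have : 2 ^ K - 1 + 1 = 2 ^ K := by omega
      calc i * (2 ^ K - 1) + i = i * (2 ^ K - 1 + 1) := by ring
        _ = 2 ^ K * i := by rw [this]; ring
    rw [mul_add]; omega
  have hcb : ∀ y < 2 ^ K, (2 ^ K - 1 - y).testBit (K - 1) = !y.testBit (K - 1) := by
    intro y hy
    by_cases hc : y < 2 ^ (K - 1)
    · rw [testBit_top_false _ _ hc, testBit_top_true (K - 1) _ (by omega) (by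
        rw [show K - 1 + 1 = K by omega]; omega)]; rfl
    · rw [testBit_top_true (K - 1) y (by omega) (by rw [show K - 1 + 1 = K by omega]; omega),
        testBit_top_false (K - 1) _ (by omega)]; rfl
  have b0 : ∀ z i : ℕ, (z + i).testBit 0 = xor (z.testBit 0) (decide (i % 2 = 1)) := by
    intro z i
    rw [Nat.testBit_zero, Nat.testBit_zero]
    rcases Nat.mod_two_eq_zero_or_one z with h1 | h1 <;>
    rcases Nat.mod_two_eq_zero_or_one i with h2 | h2 <;> simp [Nat.add_mod, h1, h2]
  have hq3 : v / 2 ^ (K - 1) = 0 ∨ v / 2 ^ (K - 1) = 1 := by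
    clear hdm; generalize v / 2 ^ (K - 1) = z at hq2; omega
  rcases hq3 with hτ | hτ
  · rw [hτ, mul_zero, zero_add] at hdm
    rw [hdm] at ho
    have hconst : ∀ i < 2 ^ (K - 2) + 1, xor (r (x + i)) (r (v + i)) =
        xor (xor (xor c (decide ((K - 1) % 2 = 1))) (v.testBit 0)) (x.testBit 0) := by
      intro i hi
      have := h i (by omega)
      rw [e i (by omega), r_zoom K (by omega) _ _ (by omega), hcb (v + i) (by omega),
        compl K (by omega) (v + i) (by omega), testBit_top_false (K - 1) (v + i) (by omega),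
        b0, b0] at this
      clear h
      revert this
      generalize r (x + i) = a1
      generalize r (v + i) = a2
      generalize v.testBit 0 = a3
      generalize x.testBit 0 = a4
      generalize decide (i % 2 = 1) = a5
      generalize decide ((K - 1) % 2 = 1) = a6
      revert a1 a2 a3 a4 a5 a6 c; decide
    refine ⟨by omega, ?_⟩
    have hpar : x % 2 = v % 2 := by
      by_contra hne
      apply odd_bad x v hne
      intro i hi
      rw [hconst i (by omega), hconst (i % 2) (by omega)]
    have := claimC (K - 1) (by omega) x v (2 ^ (K - 2) + 1) _ (by omega)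
      (by rw [show K - 1 - 1 = K - 2 by omega]) hpar hconst
    rw [show K - 1 + 1 = K by omega] at this
    rw [this, Nat.mod_eq_of_lt hv]
  · exfalso
    rw [hτ, mul_one] at hdm
    set o := v % 2 ^ (K - 1) with hodef
    apply alt_piece K x o hK (xor (xor c (decide ((K - 1) % 2 = 1))) (!o.testBit 0)) ho
    intro i hi
    have := h i hi
    have hvo : (v + i).testBit 0 = (o + i).testBit 0 := by
      rw [Nat.testBit_zero, Nat.testBit_zero]
      congr 1; rw [eq_iff_iff]; omega
    rw [e i (by omega), r_zoom K (by omega) _ _ (by omega), hcb (v + i) (by omega),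
      compl K (by omega) (v + i) (by omega), hvo,
      testBit_top_true (K - 1) (v + i) (by omega) (by
      rw [show K - 1 + 1 = K by omega]; omega)] at this
    have e2 : v + i = 2 ^ (K - 1) * 1 + (o + i) := by omega
    rw [e2, r_zoom (K - 1) (by omega) 1 (o + i) (by omega), r_one,
      show K - 1 - 1 = K - 2 by omega, show Nat.testBit 1 0 = true by decide, b0 o i] at this
    clear h
    revert this
    generalize r (x + i) = a1
    generalize r (o + i) = a2
    generalize (o + i).testBit (K - 2) = a3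
    generalize (x + i).testBit 0 = a4
    generalize decide (i % 2 = 1) = a5
    generalize o.testBit 0 = a6
    generalize decide ((K - 1) % 2 = 1) = a7
    revert a1 a2 a3 a4 a5 a6 a7 c; decide

end Pool.Agent.RS
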