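import Pool.Agent.RS.Mask

/-!
# Structure of long monochromatic progressions
-/

namespace Pool.Agent.RS

theorem step_floor (n d s j : ℕ) :
    (n + (j + 1) * d) / 2 ^ s = (n + j * d) / 2 ^ s + d / 2 ^ s ∨
    (n + (j + 1) * d) / 2 ^ s = (n + j * d) / 2 ^ s + (d / 2 ^ s + 1) := by
  have hpos : 0 < 2 ^ s := by positivity
  have e : n + (j + 1) * d = (n + j * d) + d := by ring
  rw [e]
  set a := n + j * d
  have h1 := Nat.div_add_mod a (2 ^ s)
  have h2 := Nat.div_add_mod d (2 ^ s)
  have h3 := Nat.mod_lt a hpos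
  have h4 := Nat.mod_lt d hpos
  by_cases hc : a % 2 ^ s + d % 2 ^ s < 2 ^ s
  · left
    have : a + d = (a % 2 ^ s + d % 2 ^ s) + 2 ^ s * (a / 2 ^ s + d / 2 ^ s) := by
      rw [mul_add]; omega
    rw [this, Nat.add_mul_div_left _ _ hpos, Nat.div_eq_of_lt hc]; omega
  · right
    have : a + d = (a % 2 ^ s + d % 2 ^ s - 2 ^ s) + 2 ^ s * (a / 2 ^ s + d / 2 ^ s + 1) := by
      rw [mul_add, mul_add]; omega
    rw [this, Nat.add_mul_div_left _ _ hpos, Nat.div_eq_of_lt (by omega)]; omega

theorem first_in_window (w h J : ℕ) (hh : 1 ≤ h) (hw : h < 2 ^ w) (b : ℕ → ℕ)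
    (hst : ∀ j, j + 1 < J → b (j + 1) = b j + h ∨ b (j + 1) = b j + (h + 1))
    (hJ : (2 ^ w - 1) / h + 1 < J) : ∃ j ≤ (2 ^ w - 1) / h + 1, b j % 2 ^ w ≤ h := by
  have hpos : 0 < 2 ^ w := by positivity
  have mono : ∀ j, j < J → b 0 + h * j ≤ b j := by
    intro j
    induction j with
    | zero => intro _; simp
    | succ j ih =>
      intro hj
      have := ih (by omega)
      rcases hst j hj with h1 | h1 <;> rw [h1, mul_add] <;> omega
  set B := 2 ^ w * (b 0 / 2 ^ w + 1) with hB
  have hb0 := Nat.div_add_mod (b 0) (2 ^ w)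
  have hb0' := Nat.mod_lt (b 0) hpos
  have hB0 : b 0 < B := by rw [hB, mul_add]; omega
  have hB1 : B ≤ b 0 + 2 ^ w := by rw [hB, mul_add]; omega
  set T := (2 ^ w - 1) / h + 1 with hT
  have hTB : B ≤ b T := by
    have h1 := mono T hJ
    have h2 : 2 ^ w ≤ h * T := by
      have := Nat.lt_mul_div_succ (2 ^ w - 1) (show 0 < h by omega)
      rw [hT]; omega
    omega
  classical
  have hex : ∃ j, B ≤ b j := ⟨T, hTB⟩
  set j0 := Nat.find hex with hj0
  have hj0le : j0 ≤ T := Nat.find_min' hex hTB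
  have hj0spec : B ≤ b j0 := Nat.find_spec hex
  have hj0pos : j0 ≠ 0 := by
    intro h0
    rw [h0] at hj0spec; omega
  obtain ⟨i, hi⟩ : ∃ i, j0 = i + 1 := ⟨j0 - 1, by omega⟩
  have hlt : b i < B := by
    by_contra hcon
    have := Nat.find_min' hex (not_lt.mp hcon)
    omega
  refine ⟨j0, hj0le, ?_⟩
  have hstep := hst i (by omega)
  rw [← hi] at hstep
  have hle : b j0 - B ≤ h := by rcases hstep with h1 | h1 <;> omega
  have : b j0 = (b j0 - B) + 2 ^ w * (b 0 / 2 ^ w + 1) := by omega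
  rw [this, Nat.add_mul_mod_self_left, Nat.mod_eq_of_lt (by omega)]
  exact hle

/-- a long enough sequence of good samples makes the check true -/
theorem traverse (w N d h J fuel : ℕ) (hwN : w ≤ N) (hh : 1 ≤ h) (hw : h + 1 ≤ 2 ^ w)
    (b : ℕ → ℕ) (hg : ∀ j < J, Good d (b j))
    (hst : ∀ j, j + 1 < J → b (j + 1) = b j + h ∨ b (j + 1) = b j + (h + 1))
    (hJ : (2 ^ w - 1) / h + 1 + fuel < J) : reach w N (d % 2 ^ (w + 1)) h fuel = true := by
  obtain ⟨j0, hj0, hb⟩ := first_in_window w h J hh (by omega) b hst (by omega)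
  apply reach_of_samples w N _ h d fuel hwN rfl hw (fun t => b (j0 + t))
  · intro t ht; exact hg (j0 + t) (by omega)
  · intro t ht
    have := hst (j0 + t) (by omega)
    exact this
  · simpa using hb

/-- two windows agree up to a constant or alternating sequence -/
def Tr (c c' : ℕ) : Prop :=
  ∀ i < 16, xor (r (c + i)) (r (c' + i)) = xor (r (c + i % 2)) (r (c' + i % 2))

theorem halfblock (m D : ℕ) (hm : 1 ≤ m) (b i : ℕ) (hclean : b % 2 ^ (m - 1) + i < 2 ^ (m - 1)) :
    r (2 ^ m * (b / 2 ^ m + i * D) + (b % 2 ^ m + i)) =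
      xor (xor (r (b / 2 ^ m + i * D)) (r (b % 2 ^ m + i)))
        ((b / 2 ^ m + i * D).testBit 0 && (b % 2 ^ m).testBit (m - 1)) := by
  obtain ⟨M, rfl⟩ : ∃ M, m = M + 1 := ⟨m - 1, by omega⟩
  simp only [Nat.add_sub_cancel] at hclean ⊢
  have hlt : b % 2 ^ (M + 1) < 2 ^ (M + 1) := Nat.mod_lt _ (by positivity)
  have hmm : b % 2 ^ (M + 1) % 2 ^ M = b % 2 ^ M := Nat.mod_mod_of_dvd _ (pow_dvd_pow 2 (by omega))
  have hdec := Nat.div_add_mod (b % 2 ^ (M + 1)) (2 ^ M)
  rw [hmm] at hdec
  have hq : b % 2 ^ (M + 1) / 2 ^ M < 2 := by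
    rw [Nat.div_lt_iff_lt_mul (by positivity)]; rw [pow_succ] at hlt; omega
  have hq' : 2 ^ M * (b % 2 ^ (M + 1) / 2 ^ M) ≤ 2 ^ M * 1 := Nat.mul_le_mul_left _ (by omega)
  have hpp : 2 ^ (M + 1) = 2 ^ M + 2 ^ M := by rw [pow_succ]; ring
  have hlt2 : b % 2 ^ (M + 1) + i < 2 ^ (M + 1) := by omega
  rw [r_zoom (M + 1) (by omega) _ _ hlt2]
  congr 2
  simp only [Nat.add_sub_cancel]
  rw [Nat.testBit_eq_decide_div_mod_eq, Nat.testBit_eq_decide_div_mod_eq]
  have : b % 2 ^ (M + 1) + i = (b % 2 ^ M + i) + 2 ^ M * (b % 2 ^ (M + 1) / 2 ^ M) := by omega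
  have h2 : (b % 2 ^ (M + 1) + i) / 2 ^ M = b % 2 ^ (M + 1) / 2 ^ M := by
    rw [this, Nat.add_mul_div_left _ _ (by positivity), Nat.div_eq_of_lt (by omega)]
    omega
  rw [h2]

theorem same_block (m b b' : ℕ) (hm : 1 ≤ m) (hblk : b / 2 ^ (m - 1) = b' / 2 ^ (m - 1)) :
    b / 2 ^ m = b' / 2 ^ m ∧ (b % 2 ^ m).testBit (m - 1) = (b' % 2 ^ m).testBit (m - 1) := by
  obtain ⟨M, rfl⟩ : ∃ M, m = M + 1 := ⟨m - 1, by omega⟩
  simp only [Nat.add_sub_cancel] at hblk ⊢
  constructor
  · rw [pow_succ, ← Nat.div_div_eq_div_mul, ← Nat.div_div_eq_div_mul, hblk]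
  · rw [Nat.testBit_mod_two_pow, Nat.testBit_mod_two_pow, Nat.testBit_eq_decide_div_mod_eq,
      Nat.testBit_eq_decide_div_mod_eq, hblk]

theorem transfer_pos (m D d b b' : ℕ) (hm : 1 ≤ m) (hd : d = 2 ^ m * D + 1)
    (g : Good d b) (g' : Good d b') (hc : b % 2 ^ (m - 1) + 15 < 2 ^ (m - 1))
    (hc' : b' % 2 ^ (m - 1) + 15 < 2 ^ (m - 1)) (hblk : b / 2 ^ (m - 1) = b' / 2 ^ (m - 1)) :
    Tr b b' := by
  obtain ⟨hX, hτ⟩ := same_block m b b' hm hblk
  have key : ∀ i ≤ 15, xor (r (b + i)) (r (b' + i)) = xor (r (b + i * d)) (r (b' + i * d)) := by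
    intro i hi
    have e1 : ∀ c : ℕ, c + i * d = 2 ^ m * (c / 2 ^ m + i * D) + (c % 2 ^ m + i) := by
      intro c
      have := Nat.div_add_mod c (2 ^ m)
      rw [hd]
      calc c + i * (2 ^ m * D + 1) = (2 ^ m * (c / 2 ^ m) + c % 2 ^ m) + i * (2 ^ m * D + 1) := by rw [this]
        _ = _ := by ring
    have e2 : ∀ c : ℕ, c + i = 2 ^ m * (c / 2 ^ m + i * 0) + (c % 2 ^ m + i) := by
      intro c
      have := Nat.div_add_mod c (2 ^ m)
      rw [mul_zero, add_zero]; omega
    rw [e1 b, e1 b', e2 b, e2 b', halfblock m D hm b i (by omega), halfblock m D hm b' i (by omega),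
      halfblock m 0 hm b i (by omega), halfblock m 0 hm b' i (by omega), hX, hτ]
    generalize r (b' / 2 ^ m + i * 0) = a1
    generalize r (b' / 2 ^ m + i * D) = a2
    generalize r (b % 2 ^ m + i) = a3
    generalize r (b' % 2 ^ m + i) = a4
    generalize ((b' / 2 ^ m + i * 0).testBit 0 && (b' % 2 ^ m).testBit (m - 1)) = a5
    generalize ((b' / 2 ^ m + i * D).testBit 0 && (b' % 2 ^ m).testBit (m - 1)) = a6
    revert a1 a2 a3 a4 a5 a6; decide
  intro i hi
  rw [key i (by omega), key (i % 2) (by omega), g i hi, g' i hi]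

theorem transfer_neg (m D d c c' : ℕ) (hm : 1 ≤ m) (hD : 1 ≤ D) (hd : d + 1 = 2 ^ m * D)
    (g : Good d (c + 15)) (g' : Good d (c' + 15)) (hc : c % 2 ^ (m - 1) + 15 < 2 ^ (m - 1))
    (hc' : c' % 2 ^ (m - 1) + 15 < 2 ^ (m - 1)) (hblk : c / 2 ^ (m - 1) = c' / 2 ^ (m - 1)) :
    Tr c c' := by
  obtain ⟨hX, hτ⟩ := same_block m c c' hm hblk
  have key : ∀ i ≤ 15, xor (r (c + (15 - i))) (r (c' + (15 - i))) =
      xor (r (c + 15 + i * d)) (r (c' + 15 + i * d)) := by
    intro i hi
    have e1 : ∀ c : ℕ, c + 15 + i * d = 2 ^ m * (c / 2 ^ m + i * D) + (c % 2 ^ m + (15 - i)) := by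
      intro c
      have := Nat.div_add_mod c (2 ^ m)
      have h2 : i * (2 ^ m * D) = i * d + i := by rw [← hd]; ring
      have h3 : 2 ^ m * (c / 2 ^ m + i * D) = 2 ^ m * (c / 2 ^ m) + i * (2 ^ m * D) := by ring
      rw [h3, h2]; omega
    have e2 : ∀ c : ℕ, c + (15 - i) = 2 ^ m * (c / 2 ^ m + (15 - i) * 0) + (c % 2 ^ m + (15 - i)) := by
      intro c
      have := Nat.div_add_mod c (2 ^ m)
      rw [mul_zero, add_zero]; omega
    -- use halfblock with step count `15 - i` but quotient offset `i * D`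
    have hb : ∀ c : ℕ, c % 2 ^ (m - 1) + 15 < 2 ^ (m - 1) →
        ∀ Q, r (2 ^ m * Q + (c % 2 ^ m + (15 - i))) =
          xor (xor (r Q) (r (c % 2 ^ m + (15 - i)))) (Q.testBit 0 && (c % 2 ^ m).testBit (m - 1)) := by
      intro c hcc Q
      obtain ⟨M, rfl⟩ : ∃ M, m = M + 1 := ⟨m - 1, by omega⟩
      simp only [Nat.add_sub_cancel] at hcc ⊢
      have hlt : c % 2 ^ (M + 1) < 2 ^ (M + 1) := Nat.mod_lt _ (by positivity)
      have hmm : c % 2 ^ (M + 1) % 2 ^ M = c % 2 ^ M :=
        Nat.mod_mod_of_dvd _ (pow_dvd_pow 2 (by omega))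
      have hdec := Nat.div_add_mod (c % 2 ^ (M + 1)) (2 ^ M)
      rw [hmm] at hdec
      have hq : c % 2 ^ (M + 1) / 2 ^ M < 2 := by
        rw [Nat.div_lt_iff_lt_mul (by positivity)]; rw [pow_succ] at hlt; omega
      have hq' : 2 ^ M * (c % 2 ^ (M + 1) / 2 ^ M) ≤ 2 ^ M * 1 := Nat.mul_le_mul_left _ (by omega)
      have hpp : 2 ^ (M + 1) = 2 ^ M + 2 ^ M := by rw [pow_succ]; ring
      have hlt2 : c % 2 ^ (M + 1) + (15 - i) < 2 ^ (M + 1) := by omega
      rw [r_zoom (M + 1) (by omega) _ _ hlt2]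
      congr 2
      simp only [Nat.add_sub_cancel]
      rw [Nat.testBit_eq_decide_div_mod_eq, Nat.testBit_eq_decide_div_mod_eq]
      have : c % 2 ^ (M + 1) + (15 - i) = (c % 2 ^ M + (15 - i)) + 2 ^ M * (c % 2 ^ (M + 1) / 2 ^ M) := by omega
      have h2 : (c % 2 ^ (M + 1) + (15 - i)) / 2 ^ M = c % 2 ^ (M + 1) / 2 ^ M := by
        rw [this, Nat.add_mul_div_left _ _ (by positivity), Nat.div_eq_of_lt (by omega)]
        omega
      rw [h2]
    rw [e1 c, e1 c', e2 c, e2 c', hb c hc, hb c' hc', hb c hc, hb c' hc', hX, hτ]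
    generalize r (c' / 2 ^ m + (15 - i) * 0) = a1
    generalize r (c' / 2 ^ m + i * D) = a2
    generalize r (c % 2 ^ m + (15 - i)) = a3
    generalize r (c' % 2 ^ m + (15 - i)) = a4
    generalize ((c' / 2 ^ m + (15 - i) * 0).testBit 0 && (c' % 2 ^ m).testBit (m - 1)) = a5
    generalize ((c' / 2 ^ m + i * D).testBit 0 && (c' % 2 ^ m).testBit (m - 1)) = a6
    revert a1 a2 a3 a4 a5 a6; decide
  intro i hi
  have k1 := key (15 - i) (by omega)
  have k2 := key (15 - i % 2) (by omega)
  rw [show 15 - (15 - i) = i by omega, g _ (by omega), g' _ (by omega)] at k1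
  rw [show 15 - (15 - i % 2) = i % 2 by omega, g _ (by omega), g' _ (by omega)] at k2
  rw [show (15 - i % 2) % 2 = (15 - i) % 2 by omega] at k2
  rw [k1, k2]

theorem tr_f (c h : ℕ) (ht : Tr c (c + h)) : ∀ i < 16, f h (c + i) = f h (c + i % 2) := by
  intro i hi
  have := ht i hi
  unfold f
  rw [show c + i + h = c + h + i by ring, show c + i % 2 + h = c + h + i % 2 by ring]
  exact this

/-- The combinatorial core: samples with steps in `{h, h+1}`, `h ∈ {31, 32}`, agreeing inside
half blocks, have all their steps equal to 32. -/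
theorem steps32 (H J h : ℕ) (hH : 256 ≤ H) (hH16 : H % 16 = 0) (hh : h = 31 ∨ h = 32)
    (c : ℕ → ℕ)
    (hst : ∀ j, j + 1 < J → c (j + 1) = c j + h ∨ c (j + 1) = c j + (h + 1))
    (hT : ∀ j j', 1 ≤ j → 1 ≤ j' → j < J → j' < J → c j % H + 15 < H → c j' % H + 15 < H →
      c j / H = c j' / H → Tr (c j) (c j')) :
    ∀ j, 5 ≤ j → j + 6 < J → c (j + 1) = c j + 32 := by
  have hHpos : 0 < H := by omega
  -- position of a point near `x`
  have near : ∀ x a, x % H + a < H → (x + a) % H = x % H + a ∧ (x + a) / H = x / H := by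
    intro x a hxa
    have h1 := Nat.div_add_mod x H
    have h2 : x + a = (x % H + a) + H * (x / H) := by omega
    rw [h2, Nat.add_mul_mod_self_left, Nat.add_mul_div_left _ _ hHpos, Nat.mod_eq_of_lt hxa,
      Nat.div_eq_of_lt hxa]
    omega
  -- four consecutive clean samples
  have four : ∀ j, 1 ≤ j → j + 3 < J → c j % H + (c (j + 3) - c j) + 15 < H →
      c j % 16 = 0 ∧ c (j + 1) = c j + 32 ∧ c (j + 2) = c j + 64 ∧ c (j + 3) = c j + 96 := by
    intro j hj1 hj hclean
    have w1 : c j + 31 ≤ c (j + 1) := by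
      have := hst j (by omega)
      rcases hh with rfl | rfl <;> omega
    have w2 : c (j + 1) + 31 ≤ c (j + 2) := by
      have := hst (j + 1) (by omega)
      rw [show j + 1 + 1 = j + 2 by ring] at this
      rcases hh with rfl | rfl <;> omega
    have w3 : c (j + 2) + 31 ≤ c (j + 3) := by
      have := hst (j + 2) (by omega)
      rw [show j + 2 + 1 = j + 3 by ring] at this
      rcases hh with rfl | rfl <;> omega
    have step : ∀ t, t < 3 → c (j + t) = c j + 32 * t → c (j + t + 1) ≤ c (j + 3) →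
        c (j + t + 1) = c j + 32 * (t + 1) := by
      intro t ht hct hle
      have hs := hst (j + t) (by omega)
      obtain ⟨n1, n2⟩ := near (c j) (32 * t) (by
        rcases hh with rfl | rfl <;> omega)
      rw [← hct] at n1 n2
      by_contra hne
      have hs' : c (j + t + 1) = c (j + t) + 31 ∨ c (j + t + 1) = c (j + t) + 33 := by
        rcases hh with rfl | rfl <;> rcases hs with hs | hs <;> omega
      rcases hs' with hs' | hs'
      · obtain ⟨m1, m2⟩ := near (c (j + t)) 31 (by omega)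
        rw [← hs'] at m1 m2
        have := hT (j + t) (j + t + 1) (by omega) (by omega) (by omega) (by omega) (by omega)
          (by omega) m2.symm
        rw [hs'] at this
        exact odd_bad_f 31 _ (by norm_num) (fun i hi => tr_f _ _ this i (by omega))
      · obtain ⟨m1, m2⟩ := near (c (j + t)) 33 (by omega)
        rw [← hs'] at m1 m2
        have := hT (j + t) (j + t + 1) (by omega) (by omega) (by omega) (by omega) (by omega)
          (by omega) m2.symm
        rw [hs'] at this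
        exact odd_bad_f 33 _ (by norm_num) (fun i hi => tr_f _ _ this i (by omega))
    have s1 : c (j + 1) = c j + 32 := step 0 (by norm_num) (by simp)
      (by simpa using (by omega : c (j + 1) ≤ c (j + 3)))
    have s2 : c (j + 2) = c j + 64 := step 1 (by norm_num) (by simpa using s1)
      (by simpa using (by omega : c (j + 2) ≤ c (j + 3)))
    have s3 : c (j + 3) = c j + 96 := step 2 (by norm_num) (by simpa using s2) le_rfl
    obtain ⟨p1, q1⟩ := near (c j) 32 (by omega)
    obtain ⟨p2, q2⟩ := near (c j) 64 (by omega)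
    obtain ⟨p3, q3⟩ := near (c j) 96 (by omega)
    refine ⟨?_, s1, s2, s3⟩
    apply align32
    · have := hT j (j + 1) (by omega) (by omega) (by omega) (by omega) (by omega) (by rw [s1]; omega)
        (by rw [s1, q1])
      rw [s1] at this
      exact tr_f _ _ this
    · have := hT (j + 1) (j + 2) (by omega) (by omega) (by omega) (by omega) (by rw [s1]; omega)
        (by rw [s2]; omega) (by rw [s1, s2, q1, q2])
      rw [s1, s2] at this
      exact tr_f _ _ this
    · have := hT (j + 2) (j + 3) (by omega) (by omega) (by omega) (by omega) (by rw [s2]; omega)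
        (by rw [s3]; omega) (by rw [s2, s3, q2, q3])
      rw [s2, s3] at this
      exact tr_f _ _ this
  -- backwards position
  have back : ∀ x y, x ≤ y → y - x ≤ y % H → x % H = y % H - (y - x) := by
    intro x y hxy hle
    have h1 := Nat.div_add_mod y H
    have h3 := Nat.mod_lt y hHpos
    have h2 : x = (y % H - (y - x)) + H * (y / H) := by omega
    conv_lhs => rw [h2]
    rw [Nat.add_mul_mod_self_left, Nat.mod_eq_of_lt (by omega)]
  have L1 : ∀ j, 4 ≤ j → j + 3 < J → c j % H + 15 < H → c j % 16 = 0 := by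
    intro j hj4 hjJ hclean
    by_cases hright : c j % H + 114 < H
    · have s1 := hst j (by omega)
      have s2 := hst (j + 1) (by omega)
      have s3 := hst (j + 2) (by omega)
      have hdiff : c (j + 3) ≤ c j + 99 := by
        rw [show j + 1 + 1 = j + 2 by ring] at s2
        rw [show j + 2 + 1 = j + 3 by ring] at s3
        rcases hh with rfl | rfl <;> rcases s1 with s1 | s1 <;> rcases s2 with s2 | s2 <;>
          rcases s3 with s3 | s3 <;> omega
      exact (four j (by omega) hjJ (by omega)).1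
    · -- go left
      have s1 := hst (j - 1) (by omega)
      have s2 := hst (j - 2) (by omega)
      have s3 := hst (j - 3) (by omega)
      rw [show j - 1 + 1 = j by omega] at s1
      rw [show j - 2 + 1 = j - 1 by omega] at s2
      rw [show j - 3 + 1 = j - 2 by omega] at s3
      have hdiff : c (j - 3) + 93 ≤ c j ∧ c j ≤ c (j - 3) + 99 := by
        rcases hh with rfl | rfl <;> rcases s1 with s1 | s1 <;> rcases s2 with s2 | s2 <;>
          rcases s3 with s3 | s3 <;> omega
      have hb := back (c (j - 3)) (c j) (by omega) (by omega)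
      have h3 : j - 3 + 3 = j := by omega
      have := four (j - 3) (by omega) (by omega) (by rw [h3]; omega)
      rw [h3] at this
      omega
  have L2 : ∀ j, 5 ≤ j → j + 4 < J → c j % H + 15 < H := by
    intro j hj5 hjJ
    by_contra hun
    have hmod := Nat.mod_lt (c j) hHpos
    have s1 := hst (j - 1) (by omega)
    rw [show j - 1 + 1 = j by omega] at s1
    have s2 := hst j (by omega)
    have hprev : c (j - 1) + 31 ≤ c j ∧ c j ≤ c (j - 1) + 33 := by
      rcases hh with rfl | rfl <;> rcases s1 with s1 | s1 <;> omega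
    have hb := back (c (j - 1)) (c j) (by omega) (by omega)
    have a1 := L1 (j - 1) (by omega) (by omega) (by omega)
    -- next sample
    have hnext : c (j + 1) % H + 15 < H := by
      have hdm := Nat.div_add_mod (c j) H
      have hb2 : c j + 31 ≤ c (j + 1) ∧ c (j + 1) ≤ c j + 33 := by
        rcases hh with rfl | rfl <;> rcases s2 with s2 | s2 <;> omega
      have : c (j + 1) = (c j % H + (c (j + 1) - c j) - H) + H * (c j / H + 1) := by
        rw [mul_add, mul_one]; omega
      rw [this, Nat.add_mul_mod_self_left, Nat.mod_eq_of_lt (by omega)]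
      omega
    have a2 := L1 (j + 1) (by omega) (by omega) hnext
    -- c j is a multiple of 16
    have hc16 : c j % 16 = 0 := by
      rcases hh with rfl | rfl <;> rcases s1 with s1 | s1 <;> rcases s2 with s2 | s2 <;> omega
    have : c j % H % 16 = 0 := by
      have hdvd : 16 ∣ H := Nat.dvd_of_mod_eq_zero hH16
      rw [Nat.mod_mod_of_dvd _ hdvd]; exact hc16
    omega
  intro j hj5 hjJ
  have c1 := L2 j hj5 (by omega)
  have c2 := L2 (j + 1) (by omega) (by omega)
  have a1 := L1 j (by omega) (by omega) c1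
  have a2 := L1 (j + 1) (by omega) (by omega) c2
  have s := hst j (by omega)
  rcases hh with rfl | rfl <;> rcases s with s | s <;> omega

end Pool.Agent.RS
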